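import Mathlib

set_option autoImplicit false

namespace Pool.Agent.Lib.MP_17bf10_co

variable {E : Type*} [NormedAddCommGroup E] [InnerProductSpace ℝ E]

/-- intersection of the unit balls centred at the points of `S` -/
def PP (S : Finset E) : Set E := ⋂ c ∈ S, Metric.closedBall c (1 : ℝ)

theorem mem_PP {S : Finset E} {x : E} : x ∈ PP S ↔ ∀ c ∈ S, ‖x - c‖ ≤ 1 := by
  simp [PP, Metric.mem_closedBall, dist_eq_norm]

/-- centres of the unit balls containing `PP S` -/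
def QQ (S : Finset E) : Set E := {q | ∀ y ∈ PP S, ‖y - q‖ ≤ 1}

theorem center_mem_QQ {S : Finset E} {c : E} (hc : c ∈ S) : c ∈ QQ S :=
  fun _ hy => mem_PP.1 hy c hc

theorem scalarN {A W g η α X Y : ℝ} (hA : A ≤ 1) (hη : 0 < η) (hW : W = 4 * η + 2 * g)
    (hα0 : 0 < α) (hα1 : α ≤ 1) (hg : 0 ≤ g) (hαD : α * (W + η ^ 2 + 2 * η + 1) = 2 * η)
    (h1 : A + 2 * X + W ≤ 1) (h2 : Y ≤ 1) :
    A + α ^ 2 * W + (α * (g + η)) ^ 2 + 2 * α * X + 2 * (α * (g + η)) * Y
      - 2 * α * (α * (g + η)) * g ≤ 1 := by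
  have h6 : α * (A + 2 * X + W) ≤ α * 1 := mul_le_mul_of_nonneg_left h1 hα0.le
  have h7 : (α * (g + η)) * Y ≤ (α * (g + η)) * 1 := mul_le_mul_of_nonneg_left h2 (by positivity)
  have h8 : (1 - α) * A ≤ (1 - α) * 1 := mul_le_mul_of_nonneg_left hA (by linarith)
  have h9 : α * (W + η ^ 2 - g ^ 2) ≤ 2 * η := by
    have : α * (W + η ^ 2 - g ^ 2) ≤ α * (W + η ^ 2 + 2 * η + 1) := by
      apply mul_le_mul_of_nonneg_left _ hα0.le
      linarith [sq_nonneg g]
    linarith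
  have h11 : α * (α * (W + η ^ 2 - g ^ 2) - 2 * η) ≤ 0 :=
    mul_nonpos_of_nonneg_of_nonpos hα0.le (by linarith)
  have h10 : α ^ 2 * W + (α * (g + η)) ^ 2 - α * W + 2 * (α * (g + η))
      - 2 * α * (α * (g + η)) * g
      = α * (α * (W + η ^ 2 - g ^ 2) - 2 * η) := by
    rw [hW]; ring
  linarith

/-- A supporting half-space of an intersection of unit balls can be replaced by a unit ball. -/
theorem lemmaN {S : Finset E} {x u : E} (hx : x ∈ PP S) (hu : ‖u‖ = 1)
    (hsup : ∀ y ∈ PP S, inner ℝ u (y - x) ≤ 0) : x - u ∈ QQ S := by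
  intro y hy
  set w := y - x with hw
  set W := ‖w‖ ^ 2 with hW
  set g := - inner ℝ w u with hg
  have hg0 : 0 ≤ g := by
    have := hsup y hy
    rw [real_inner_comm] at this
    rw [hg]; linarith
  have hyx : y - (x - u) = w + u := by rw [hw]; abel
  have hns : ‖w + u‖ ^ 2 = W - 2 * g + 1 := by
    rw [norm_add_sq_real, hu, hg]; ring
  rw [hyx]
  by_contra hcon
  push Not at hcon
  have h1 : 1 ^ 2 < ‖w + u‖ ^ 2 := by gcongr
  have hWg : 0 < W - 2 * g := by linarith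
  have hW0 : 0 ≤ W := sq_nonneg _
  set η := (W - 2 * g) / 4 with hη
  have hη0 : 0 < η := by positivity
  set D := W + η ^ 2 + 2 * η + 1 with hD
  have hD0 : 0 < D := by positivity
  set α := 2 * η / D with hα
  have hα0 : 0 < α := by positivity
  have hαD : α * D = 2 * η := by rw [hα]; field_simp
  have hα1 : α ≤ 1 := by
    rw [hα, div_le_one hD0, hD]; linarith [sq_nonneg η]
  set β := α * (g + η) with hβ
  have hβ0 : 0 ≤ β := by positivity
  set z := x + α • w + β • u with hz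
  have hzP : z ∈ PP S := by
    rw [mem_PP]
    intro c hc
    have hxc := mem_PP.1 hx c hc
    have hyc := mem_PP.1 hy c hc
    set v := x - c with hv
    have e1 : y - c = v + w := by rw [hv, hw]; abel
    have e2 : z - c = (v + α • w) + β • u := by rw [hz, hv]; abel
    have hA : ‖v‖ ^ 2 ≤ 1 := pow_le_one₀ (norm_nonneg v) hxc
    have hyc2 : ‖v‖ ^ 2 + 2 * inner ℝ v w + W ≤ 1 := by
      have h3 : ‖v + w‖ ^ 2 ≤ 1 := by
        rw [← e1]; exact pow_le_one₀ (norm_nonneg _) hyc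
      rw [norm_add_sq_real] at h3
      exact h3
    have hvu : inner ℝ v u ≤ 1 := by
      have := real_inner_le_norm v u
      rw [hu] at this; linarith
    have h4 : ‖z - c‖ ^ 2 = ‖v‖ ^ 2 + α ^ 2 * W + β ^ 2 + 2 * α * inner ℝ v w
        + 2 * β * inner ℝ v u - 2 * α * β * g := by
      rw [e2, norm_add_sq_real, norm_add_sq_real, norm_smul, norm_smul, inner_add_left,
        inner_smul_right, inner_smul_right, inner_smul_right, inner_smul_left, hu, hg, hW,
        mul_pow, mul_pow, Real.norm_eq_abs, Real.norm_eq_abs, sq_abs, sq_abs]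
      simp
      ring
    have h5 : ‖z - c‖ ^ 2 ≤ 1 := by
      rw [h4, hβ]
      exact scalarN hA hη0 (by rw [hη]; ring) hα0 hα1 hg0 hαD hyc2 hvu
    by_contra hcon2
    push Not at hcon2
    have h12 : 1 ^ 2 < ‖z - c‖ ^ 2 := by gcongr
    linarith
  have hfin := hsup z hzP
  have e3 : inner ℝ u (z - x) = α * η := by
    have : z - x = α • w + β • u := by rw [hz]; abel
    rw [this, inner_add_right, inner_smul_right, inner_smul_right, real_inner_self_eq_norm_sq, hu,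
      real_inner_comm, hβ]
    have : inner ℝ w u = -g := by rw [hg]; ring
    rw [this]; ring
  rw [e3] at hfin
  linarith [mul_pos hα0 hη0]

/-- distance estimate from a point in `QQ S` to a set with the covering property -/
theorem QQ_center {S : Finset E} {δ : ℝ} (hδ1 : δ ≤ 1) (hδ0 : 0 ≤ δ)
    (hδ : ∀ c ∈ S, ∀ c' ∈ S, ‖c - c'‖ ≤ δ) {q c : E} (hq : q ∈ QQ S) (hc : c ∈ S) :
    ‖q - c‖ ≤ δ := by
  rcases eq_or_ne q c with rfl | hne
  · simpa using hδ0
  have hn : 0 < ‖q - c‖ := norm_pos_iff.2 (sub_ne_zero.2 hne)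
  set y := c - ((1 - δ) * ‖q - c‖⁻¹) • (q - c) with hy
  have hyP : y ∈ PP S := by
    rw [mem_PP]
    intro c' hc'
    have e : y - c' = (c - c') - ((1 - δ) * ‖q - c‖⁻¹) • (q - c) := by rw [hy]; abel
    rw [e]
    refine (norm_sub_le _ _).trans ?_
    rw [norm_smul, Real.norm_eq_abs, abs_of_nonneg (by positivity [sub_nonneg.2 hδ1])]
    have : (1 - δ) * ‖q - c‖⁻¹ * ‖q - c‖ = 1 - δ := by field_simp
    rw [this]
    linarith [hδ c hc c' hc']
  have h1 := hq y hyP
  have e : y - q = -((1 + (1 - δ) * ‖q - c‖⁻¹) • (q - c)) := by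
    rw [hy, add_smul, one_smul]; abel
  rw [e, norm_neg, norm_smul, Real.norm_eq_abs, abs_of_nonneg (by positivity [sub_nonneg.2 hδ1]),
    add_mul, one_mul] at h1
  have : (1 - δ) * ‖q - c‖⁻¹ * ‖q - c‖ = 1 - δ := by field_simp
  rw [this] at h1
  linarith

theorem QQ_diam {S : Finset E} {δ : ℝ} (hδ1 : δ ≤ 1) (hδ0 : 0 ≤ δ)
    (hδ : ∀ c ∈ S, ∀ c' ∈ S, ‖c - c'‖ ≤ δ) {q q' : E} (hq : q ∈ QQ S) (hq' : q' ∈ QQ S) :
    ‖q - q'‖ ≤ δ := by
  rcases eq_or_ne q q' with rfl | hne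
  · simpa using hδ0
  have hn : 0 < ‖q - q'‖ := norm_pos_iff.2 (sub_ne_zero.2 hne)
  set y := q + ((1 - δ) * ‖q - q'‖⁻¹) • (q - q') with hy
  have hyP : y ∈ PP S := by
    rw [mem_PP]
    intro c' hc'
    have e : y - c' = (q - c') + ((1 - δ) * ‖q - q'‖⁻¹) • (q - q') := by rw [hy]; abel
    rw [e]
    refine (norm_add_le _ _).trans ?_
    rw [norm_smul, Real.norm_eq_abs, abs_of_nonneg (by positivity [sub_nonneg.2 hδ1])]
    have : (1 - δ) * ‖q - q'‖⁻¹ * ‖q - q'‖ = 1 - δ := by field_simp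
    rw [this]
    linarith [QQ_center hδ1 hδ0 hδ hq hc']
  have h1 := hq' y hyP
  have e : y - q' = ((1 + (1 - δ) * ‖q - q'‖⁻¹) • (q - q')) := by
    rw [hy, add_smul, one_smul]; abel
  rw [e, norm_smul, Real.norm_eq_abs, abs_of_nonneg (by positivity [sub_nonneg.2 hδ1]),
    add_mul, one_mul] at h1
  have : (1 - δ) * ‖q - q'‖⁻¹ * ‖q - q'‖ = 1 - δ := by field_simp
  rw [this] at h1
  linarith

/-- The data of the support-type function of `PP S`. -/
theorem exists_N [FiniteDimensional ℝ E] {S : Finset E} (hS : S.Nonempty)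
    (hS1 : ∀ c ∈ S, ∀ c' ∈ S, ‖c - c'‖ ≤ 1) :
    ∃ y : E → E, (∀ V, y V ∈ PP S) ∧ ∀ V, ∀ z ∈ PP S, inner ℝ (y V) V ≤ inner ℝ z V := by
  have hne : (PP S).Nonempty := by
    obtain ⟨c, hc⟩ := hS
    exact ⟨c, mem_PP.2 fun c' hc' => hS1 c hc c' hc'⟩
  have hcl : IsClosed (PP S) := by
    unfold PP
    exact isClosed_biInter fun _ _ => Metric.isClosed_closedBall
  have hcomp : IsCompact (PP S) := by
    obtain ⟨c, hc⟩ := hS
    refine (isCompact_closedBall c 1).of_isClosed_subset hcl ?_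
    intro x hx
    rw [Metric.mem_closedBall, dist_eq_norm]
    exact mem_PP.1 hx c hc
  have : ∀ V : E, ∃ y ∈ PP S, ∀ z ∈ PP S, inner ℝ y V ≤ inner ℝ z V := by
    intro V
    obtain ⟨y, hy, hmin⟩ := hcomp.exists_isMinOn hne
      (f := fun z => inner ℝ z V) (by fun_prop)
    exact ⟨y, hy, fun z hz => hmin hz⟩
  choose y hy using this
  exact ⟨y, fun V => (hy V).1, fun V => (hy V).2⟩

/-- consequences packaged: a sublinear function `N` -/
theorem exists_N' [FiniteDimensional ℝ E] {S : Finset E} (hS : S.Nonempty)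
    (hS1 : ∀ c ∈ S, ∀ c' ∈ S, ‖c - c'‖ ≤ 1) :
    ∃ N : E → ℝ, N 0 = 0 ∧ (∀ V, ∀ z ∈ PP S, - inner ℝ z V ≤ N V) ∧
      (∀ V, ∃ z ∈ PP S, N V = - inner ℝ z V) ∧
      (∀ V W, N (V + W) ≤ N V + N W) ∧
      (∀ V, ∃ q ∈ QQ S, N V = ‖V‖ - inner ℝ q V) := by
  obtain ⟨y, hy1, hy2⟩ := exists_N hS hS1
  refine ⟨fun V => - inner ℝ (y V) V, by simp, fun V z hz => by linarith [hy2 V z hz],
    fun V => ⟨y V, hy1 V, rfl⟩, ?_, ?_⟩
  · intro V W
    have h1 := hy2 V _ (hy1 (V + W))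
    have h2 := hy2 W _ (hy1 (V + W))
    simp only [inner_add_right]
    linarith
  · intro V
    rcases eq_or_ne V 0 with rfl | hV
    · obtain ⟨c, hc⟩ := hS
      exact ⟨c, center_mem_QQ hc, by simp⟩
    · have hn : 0 < ‖V‖ := norm_pos_iff.2 hV
      refine ⟨y V - (-(‖V‖⁻¹ • V)), lemmaN (hy1 V) ?_ ?_, ?_⟩
      · rw [norm_neg, norm_smul, norm_inv, norm_norm, inv_mul_cancel₀ hn.ne']
      · intro z hz
        have := hy2 V z hz
        rw [inner_neg_left, inner_smul_left, inner_sub_right]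
        have h3 : 0 ≤ inner ℝ V z - inner ℝ V (y V) := by
          rw [real_inner_comm z V, real_inner_comm (y V) V]; linarith
        have h4 : 0 ≤ ‖V‖⁻¹ * (inner ℝ V z - inner ℝ V (y V)) := by positivity
        simp only [conj_trivial]
        linarith
      · rw [sub_neg_eq_add, inner_add_left, inner_smul_left, real_inner_self_eq_norm_sq]
        simp only [conj_trivial]
        field_simp
        ring

end Pool.Agent.Lib.MP_17bf10_co
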