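import Mathlib

set_option autoImplicit false

open Finset

namespace Pool.Agent.Lib.MP_17bf10_co

variable {E : Type*} [NormedAddCommGroup E] [InnerProductSpace ℝ E]

theorem double_sum_eq {ι : Type*} [Fintype ι] (w : ι → ℝ) (q : ι → E) :
    ∑ g, ∑ h, w g * w h * ‖q g - q h‖ ^ 2
      = 2 * ((∑ g, w g) * ∑ g, w g * ‖q g‖ ^ 2) - 2 * ‖∑ g, w g • q g‖ ^ 2 := by
  have h1 : ‖∑ g, w g • q g‖ ^ 2 = ∑ g, ∑ h, w g * w h * inner ℝ (q g) (q h) := by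
    rw [← real_inner_self_eq_norm_sq, sum_inner]
    refine sum_congr rfl fun g _ => ?_
    rw [inner_sum]
    refine sum_congr rfl fun h _ => ?_
    rw [inner_smul_left, inner_smul_right]
    simp only [conj_trivial]
    ring
  have h2 : (∑ g, w g) * ∑ g, w g * ‖q g‖ ^ 2 = ∑ g, ∑ h, w g * w h * ‖q h‖ ^ 2 := by
    rw [sum_mul_sum]
    refine sum_congr rfl fun g _ => sum_congr rfl fun h _ => ?_
    ring
  have h3 : (∑ g, w g) * ∑ g, w g * ‖q g‖ ^ 2 = ∑ g, ∑ h, w g * w h * ‖q g‖ ^ 2 := by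
    rw [h2, sum_comm]
    refine sum_congr rfl fun g _ => sum_congr rfl fun h _ => ?_
    ring
  have h4 : 2 * ((∑ g, w g) * ∑ g, w g * ‖q g‖ ^ 2) - 2 * ‖∑ g, w g • q g‖ ^ 2
      = (∑ g, ∑ h, w g * w h * ‖q h‖ ^ 2) + (∑ g, ∑ h, w g * w h * ‖q g‖ ^ 2)
        - 2 * ∑ g, ∑ h, w g * w h * inner ℝ (q g) (q h) := by
    rw [← h1]
    linarith
  rw [h4, mul_sum, ← sum_add_distrib, ← sum_sub_distrib]
  refine sum_congr rfl fun g _ => ?_
  rw [mul_sum, ← sum_add_distrib, ← sum_sub_distrib]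
  refine sum_congr rfl fun h _ => ?_
  rw [norm_sub_sq_real]
  ring

theorem moment {ι : Type*} [Fintype ι] (V q : ι → E) {δ : ℝ}
    (hV : ∑ g, V g = 0) (hq : ∀ g h, ‖q g - q h‖ ≤ δ) :
    (∑ g, inner ℝ (q g) (V g)) ^ 2 ≤ δ ^ 2 * (((∑ g, ‖V g‖) ^ 2 - ∑ g, ‖V g‖ ^ 2) / 2) := by
  classical
  set w : ι → ℝ := fun g => ‖V g‖ with hw
  have hw0 : ∀ g, 0 ≤ w g := fun g => norm_nonneg _
  set T := ∑ g, w g with hT
  have hT0 : 0 ≤ T := sum_nonneg fun g _ => hw0 g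
  rcases eq_or_lt_of_le hT0 with h0 | hTpos
  · have hz : ∀ g, V g = 0 := by
      intro g
      have := (sum_eq_zero_iff_of_nonneg (fun g _ => hw0 g)).1 h0.symm g (mem_univ g)
      exact norm_eq_zero.1 this
    have e1 : ∑ g, inner ℝ (q g) (V g) = 0 := sum_eq_zero fun g _ => by rw [hz g, inner_zero_right]
    have e2 : ∑ g, ‖V g‖ ^ 2 = 0 := sum_eq_zero fun g _ => by rw [hz g]; simp
    have e3 : ∑ g, ‖V g‖ = 0 := h0.symm
    rw [e1, e2, ← h0]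
    simp
  set m := ∑ g, w g • q g with hm
  set z := T⁻¹ • m with hz
  have hX : ∑ g, inner ℝ (q g) (V g) = ∑ g, inner ℝ (q g - z) (V g) := by
    have : ∑ g, inner ℝ z (V g) = 0 := by rw [← inner_sum, hV, inner_zero_right]
    simp only [inner_sub_left]
    rw [sum_sub_distrib, this, sub_zero]
  have hX1 : |∑ g, inner ℝ (q g) (V g)| ≤ ∑ g, w g * ‖q g - z‖ := by
    rw [hX]
    refine (abs_sum_le_sum_abs _ _).trans (sum_le_sum fun g _ => ?_)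
    refine (abs_real_inner_le_norm _ _).trans ?_
    rw [mul_comm]
  have hX2 : (∑ g, w g * ‖q g - z‖) ^ 2 ≤ (∑ g, w g) * ∑ g, w g * ‖q g - z‖ ^ 2 := by
    apply Finset.sum_sq_le_sum_mul_sum_of_sq_le_mul
    · intro g _; exact hw0 g
    · intro g _; exact mul_nonneg (hw0 g) (sq_nonneg _)
    · intro g _; exact le_of_eq (by ring)
  have hsum : ∑ g, w g * ‖q g - z‖ ^ 2 = (∑ g, w g * ‖q g‖ ^ 2) - T⁻¹ * ‖m‖ ^ 2 := by
    have e1 : ∀ g, w g * ‖q g - z‖ ^ 2 = w g * ‖q g‖ ^ 2 - 2 * inner ℝ (w g • q g) z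
        + w g * ‖z‖ ^ 2 := by
      intro g
      rw [norm_sub_sq_real, inner_smul_left]
      simp only [conj_trivial]
      ring
    rw [sum_congr rfl fun g _ => e1 g, sum_add_distrib, sum_sub_distrib, ← mul_sum, ← sum_inner,
      ← hm, ← sum_mul, ← hT, hz, inner_smul_right, real_inner_self_eq_norm_sq, norm_smul,
      mul_pow, norm_inv, Real.norm_eq_abs, abs_of_pos hTpos]
    field_simp
    ring
  have hd := double_sum_eq w q
  rw [← hm, ← hT] at hd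
  have hub : ∑ g, ∑ h, w g * w h * ‖q g - q h‖ ^ 2 ≤ δ ^ 2 * (T ^ 2 - ∑ g, w g ^ 2) := by
    have e1 : δ ^ 2 * (T ^ 2 - ∑ g, w g ^ 2)
        = ∑ g, ∑ h, δ ^ 2 * (w g * w h - if g = h then w g ^ 2 else 0) := by
      have e2 : T ^ 2 = ∑ g, ∑ h, w g * w h := by rw [sq, hT, sum_mul_sum]
      rw [e2]
      have e3 : ∑ g, w g ^ 2 = ∑ g, ∑ h, (if g = h then w g ^ 2 else 0) := by
        refine sum_congr rfl fun g _ => ?_
        simp
      rw [e3, ← sum_sub_distrib, mul_sum]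
      refine sum_congr rfl fun g _ => ?_
      rw [← sum_sub_distrib, mul_sum]
    rw [e1]
    refine sum_le_sum fun g _ => sum_le_sum fun h _ => ?_
    by_cases hgh : g = h
    · subst hgh
      simp [sq]
    · simp only [hgh, if_false, sub_zero]
      have : ‖q g - q h‖ ^ 2 ≤ δ ^ 2 := pow_le_pow_left₀ (norm_nonneg _) (hq g h) 2
      have h3 : 0 ≤ w g * w h := mul_nonneg (hw0 g) (hw0 h)
      have := mul_le_mul_of_nonneg_left this h3
      linarith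
  have hX3 : (∑ g, inner ℝ (q g) (V g)) ^ 2 ≤ (∑ g, w g * ‖q g - z‖) ^ 2 := by
    rw [← sq_abs]
    exact pow_le_pow_left₀ (abs_nonneg _) hX1 2
  have hfin : T * ((∑ g, w g * ‖q g‖ ^ 2) - T⁻¹ * ‖m‖ ^ 2)
      = T * (∑ g, w g * ‖q g‖ ^ 2) - ‖m‖ ^ 2 := by
    field_simp
  rw [hsum, ← hT, hfin] at hX2
  have hgoal2 : (∑ g, ‖V g‖ ^ 2) = ∑ g, w g ^ 2 := rfl
  rw [hgoal2]
  linarith

/-- final scalar step -/
theorem scalar_final {δ S M X L : ℝ} (hδ0 : 0 ≤ δ) (hδ1 : δ ≤ 1)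
    (hX : X ^ 2 ≤ δ ^ 2 * ((S ^ 2 - M) / 2)) (hL : S - X ≤ L) (hS : 4 < S)
    (hJ : S ^ 2 - M < 2 * (S - 2) ^ 2) : 4 - 2 * δ < L := by
  set Q := (S ^ 2 - M) / 2 with hQ
  have hQ1 : Q < (S - 2) ^ 2 := by rw [hQ]; linarith
  -- X ≤ δ * T for every T ≥ 0 with Q ≤ T^2
  have key : ∀ T : ℝ, 0 ≤ T → Q ≤ T ^ 2 → X ≤ δ * T := by
    intro T hT hQT
    have h1 : X ^ 2 ≤ (δ * T) ^ 2 := by
      rw [mul_pow]
      exact hX.trans (mul_le_mul_of_nonneg_left hQT (sq_nonneg _))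
    exact (abs_le_of_sq_le_sq' h1 (mul_nonneg hδ0 hT)).2
  -- choose T = max 2 (sqrt Q)
  set T := max 2 (Real.sqrt Q) with hT
  have hT2 : 2 ≤ T := le_max_left _ _
  have hTQ : Q ≤ T ^ 2 := by
    rcases le_total 0 Q with h | h
    · calc Q = (Real.sqrt Q) ^ 2 := (Real.sq_sqrt h).symm
        _ ≤ T ^ 2 := pow_le_pow_left₀ (Real.sqrt_nonneg _) (le_max_right _ _) 2
    · exact h.trans (sq_nonneg _)
  have hTS : T < S - 2 := by
    rw [hT, max_lt_iff]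
    refine ⟨by linarith, ?_⟩
    rw [Real.sqrt_lt' (by linarith)]
    exact hQ1
  have h1 := key T (by linarith) hTQ
  have h2 : δ * (T - 2) ≤ 1 * (T - 2) := mul_le_mul_of_nonneg_right hδ1 (by linarith)
  linarith

end Pool.Agent.Lib.MP_17bf10_co
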