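import Mathlib

set_option autoImplicit false

open InnerProductGeometry Topology

namespace Pool.Agent.Lib.MP_17bf10_co

variable {E : Type*} [NormedAddCommGroup E] [InnerProductSpace ℝ E]

theorem one_add_inner_pos {u v : E} (hu : ‖u‖ = 1) (hv : ‖v‖ = 1) (h : u ≠ -v) :
    0 < 1 + inner ℝ u v := by
  have h1 : ‖u + v‖ ^ 2 = 2 * (1 + inner ℝ u v) := by
    rw [norm_add_sq_real, hu, hv]; ring
  have h2 : u + v ≠ 0 := fun h0 => h (eq_neg_of_add_eq_zero_left h0)
  have h3 : 0 < ‖u + v‖ ^ 2 := by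
    have := norm_pos_iff.2 h2
    positivity
  linarith

theorem angle_sum_ge {z a b : E} (hz : ‖z‖ = 1) (ha : ‖a‖ = 1) (hb : b ≠ 0)
    (h : inner ℝ z (‖b‖ • a + b) ≤ 0) : Real.pi ≤ angle z a + angle z b := by
  have hbn : 0 < ‖b‖ := norm_pos_iff.2 hb
  have h1 : Real.cos (angle z a) + Real.cos (angle z b) ≤ 0 := by
    rw [cos_angle, cos_angle, hz, ha]
    rw [inner_add_right, inner_smul_right] at h
    have : inner ℝ z a / (1 * 1) + inner ℝ z b / (1 * ‖b‖)
        = (‖b‖ * inner ℝ z a + inner ℝ z b) / ‖b‖ := by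
      field_simp
    rw [this]
    exact div_nonpos_of_nonpos_of_nonneg h hbn.le
  by_contra hcon
  push Not at hcon
  have h2 : angle z a < Real.pi - angle z b := by linarith
  have h3 := Real.cos_lt_cos_of_nonneg_of_le_pi (angle_nonneg z a)
    (by linarith [angle_nonneg z b]) h2
  rw [Real.cos_pi_sub] at h3
  linarith

theorem angle_split {u v : E} {t : ℝ} (ht0 : 0 ≤ t) (ht1 : t ≤ 1)
    (hb : (1 - t) • u + t • v ≠ 0) :
    angle u ((1 - t) • u + t • v) + angle ((1 - t) • u + t • v) v = angle u v := by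
  symm
  apply angle_eq_angle_add_add_angle_add_of_mem_span hb
  rw [Submodule.mem_span_pair]
  exact ⟨⟨1 - t, by linarith⟩, ⟨t, ht0⟩, rfl⟩

theorem selection {n : ℕ} (hn : 3 ≤ n) (e : ℕ → E) (hunit : ∀ i, ‖e i‖ = 1)
    (hanti : ∀ k l, e k ≠ -e l) (hcov : ∀ y : E, ∃ k < n, inner ℝ (e k) y ≤ 0) :
    ∃ j k l : ℕ, ∃ x y : ℝ, 1 ≤ k ∧ k ≤ j ∧ j + 1 ≤ l ∧ l < n ∧ 0 ≤ x ∧ 0 ≤ y ∧
      2 * x + 2 * y = angle (e j) (e (j + 1)) ∧
      Real.pi ≤ angle (e 0) (e k) + angle (e k) (e j) + 2 * x ∧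
      Real.pi ≤ 2 * y + angle (e (j + 1)) (e l) + angle (e l) (e 0) := by
  classical
  -- choose j
  obtain ⟨j, hj1, hjn, hbad, hnot⟩ : ∃ j, 1 ≤ j ∧ j + 1 ≤ n - 1 ∧
      (∀ k, 1 ≤ k → k ≤ j → 0 < inner ℝ (e k) (e 0 + e j)) ∧
      ¬ (∀ k, 1 ≤ k → k ≤ j + 1 → 0 < inner ℝ (e k) (e 0 + e (j + 1))) := by
    by_contra hcon
    push Not at hcon
    have hall : ∀ m, 1 ≤ m → m ≤ n - 1 →
        (∀ k, 1 ≤ k → k ≤ m → 0 < inner ℝ (e k) (e 0 + e m)) := by
      intro m hm
      induction m, hm using Nat.le_induction with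
      | base =>
        intro _ k hk1 hk2
        obtain rfl : k = 1 := le_antisymm hk2 hk1
        rw [inner_add_right, real_inner_self_eq_norm_sq, hunit]
        have := one_add_inner_pos (hunit 1) (hunit 0) (hanti 1 0)
        linarith
      | succ m hm ih =>
        intro hm2
        exact hcon m hm hm2 (ih (by omega))
    obtain ⟨k, hk, hk2⟩ := hcov (e 0 + e (n - 1))
    rcases Nat.eq_zero_or_pos k with rfl | hk0
    · rw [inner_add_right, real_inner_self_eq_norm_sq, hunit] at hk2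
      have := one_add_inner_pos (hunit 0) (hunit (n - 1)) (hanti 0 (n - 1))
      linarith
    · have := hall (n - 1) (by omega) le_rfl k hk0 (by omega)
      linarith
  -- the moving point
  set b : ℝ → E := fun t => (1 - t) • e j + t • e (j + 1) with hbdef
  set y : ℝ → E := fun t => ‖b t‖ • e 0 + b t with hydef
  have hbcont : Continuous b := by rw [hbdef]; fun_prop
  have hycont : Continuous y := by rw [hydef]; fun_prop
  have hgcont : ∀ k, Continuous fun t => inner ℝ (e k) (y t) := by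
    intro k; fun_prop
  have hb0 : ∀ t, 0 ≤ t → t ≤ 1 → b t ≠ 0 := by
    intro t ht0 ht1 h0
    have h1 : (1 - t) • e j = - (t • e (j + 1)) := eq_neg_of_add_eq_zero_left h0
    have h2 : 1 - t = t := by
      have := congrArg norm h1
      rw [norm_neg, norm_smul, norm_smul, hunit, hunit, Real.norm_eq_abs, Real.norm_eq_abs,
        abs_of_nonneg ht0, abs_of_nonneg (by linarith)] at this
      linarith
    have ht : t = 1 / 2 := by linarith
    subst ht
    have h3 : e j = - e (j + 1) := by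
      have h4 : (1 - 1 / 2 : ℝ) = 1 / 2 := by norm_num
      rw [h4, ← smul_neg] at h1
      exact smul_right_injective E (by norm_num : (1 / 2 : ℝ) ≠ 0) h1
    exact hanti j (j + 1) h3
  have hbz : b 0 = e j := by rw [hbdef]; simp
  have hb1 : b 1 = e (j + 1) := by rw [hbdef]; simp
  have hy0 : y 0 = e 0 + e j := by
    rw [hydef]; simp only [hbz, hunit, one_smul]
  have hy1 : y 1 = e 0 + e (j + 1) := by
    rw [hydef]; simp only [hb1, hunit, one_smul]
  set T : Set ℝ := Set.Icc 0 1 ∩ ⋃ k ∈ Finset.Icc 1 j, {t | inner ℝ (e k) (y t) ≤ 0} with hTdef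
  have hTcl : IsClosed T := by
    apply isClosed_Icc.inter
    apply isClosed_biUnion_finset
    intro k _
    exact isClosed_le (hgcont k) continuous_const
  have hTcomp : IsCompact T := isCompact_Icc.of_isClosed_subset hTcl Set.inter_subset_left
  have hTne : T.Nonempty := by
    refine ⟨1, ⟨by norm_num, le_rfl⟩, ?_⟩
    push Not at hnot
    obtain ⟨k, hk1, hk2, hk3⟩ := hnot
    have hkj : k ≤ j := by
      by_contra hlt
      have : k = j + 1 := by omega
      subst this
      rw [inner_add_right, real_inner_self_eq_norm_sq, hunit] at hk3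
      have := one_add_inner_pos (hunit (j + 1)) (hunit 0) (hanti (j + 1) 0)
      linarith
    simp only [Set.mem_iUnion, Finset.mem_Icc, Set.mem_ofPred_eq]
    exact ⟨k, ⟨hk1, hkj⟩, by rw [hy1]; exact hk3⟩
  obtain ⟨s, hsT, hsmin⟩ := hTcomp.exists_isLeast hTne
  have hsT' := hsT
  obtain ⟨⟨hs0, hs1⟩, hsk⟩ := hsT'
  simp only [Set.mem_iUnion, Finset.mem_Icc, Set.mem_ofPred_eq] at hsk
  obtain ⟨k, ⟨hk1, hkj⟩, hk⟩ := hsk
  have hspos : 0 < s := by
    rcases eq_or_lt_of_le hs0 with h0 | h0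
    · rw [← h0, hy0] at hk
      have := hbad k hk1 hkj
      linarith
    · exact h0
  have hexl : ∃ l, j + 1 ≤ l ∧ l < n ∧ inner ℝ (e l) (y s) ≤ 0 := by
    by_contra hcon
    push Not at hcon
    have hev : ∀ᶠ t in 𝓝[<] s, ∀ l ∈ Finset.Ico (j + 1) n, 0 < inner ℝ (e l) (y t) := by
      rw [Filter.eventually_all_finset]
      intro l hl
      rw [Finset.mem_Ico] at hl
      have h1 := (hgcont l).continuousAt.eventually (lt_mem_nhds (hcon l hl.1 hl.2))
      exact h1.filter_mono nhdsWithin_le_nhds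
    have hev2 : ∀ᶠ t in 𝓝[<] s, 0 < t :=
      (lt_mem_nhds hspos).filter_mono nhdsWithin_le_nhds
    have hev3 : ∀ᶠ t in 𝓝[<] s, t < s := self_mem_nhdsWithin
    obtain ⟨t, ⟨ht1, ht2⟩, ht3⟩ := ((hev.and hev2).and hev3).exists
    have htT : t ∉ T := fun h => absurd (hsmin h) (not_le.2 ht3)
    have hlow : ∀ k, 1 ≤ k → k ≤ j → 0 < inner ℝ (e k) (y t) := by
      intro k hk1 hk2
      by_contra hcc
      push Not at hcc
      apply htT
      refine ⟨⟨ht2.le, by linarith⟩, ?_⟩
      simp only [Set.mem_iUnion, Finset.mem_Icc, Set.mem_ofPred_eq]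
      exact ⟨k, ⟨hk1, hk2⟩, hcc⟩
    have hbt := hb0 t ht2.le (by linarith)
    have hbn : 0 < ‖b t‖ := norm_pos_iff.2 hbt
    have hyt : y t ≠ 0 := by
      intro h0
      have := hlow 1 le_rfl hj1
      rw [h0, inner_zero_right] at this
      exact lt_irrefl _ this
    have hg0 : 0 < inner ℝ (e 0) (y t) := by
      have e1 : inner ℝ (e 0) (y t) = ‖b t‖ + inner ℝ (e 0) (b t) := by
        rw [hydef]
        simp only [inner_add_right, inner_smul_right, real_inner_self_eq_norm_sq, hunit]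
        ring
      have e2 : ‖y t‖ ^ 2 = 2 * ‖b t‖ * (‖b t‖ + inner ℝ (e 0) (b t)) := by
        rw [hydef]
        simp only
        rw [norm_add_sq_real, norm_smul, norm_norm, hunit, inner_smul_left]
        simp only [conj_trivial]
        ring
      have e3 : 0 < ‖y t‖ ^ 2 := by
        have := norm_pos_iff.2 hyt
        positivity
      rw [e1]
      rw [e2] at e3
      exact (mul_pos_iff_of_pos_left (by positivity)).1 e3
    obtain ⟨i, hi1, hi2⟩ := hcov (y t)
    rcases Nat.eq_zero_or_pos i with rfl | hi0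
    · linarith
    · rcases le_or_gt i j with hij | hij
      · have := hlow i hi0 hij
        linarith
      · have := ht1 i (Finset.mem_Ico.2 ⟨hij, hi1⟩)
        linarith
  obtain ⟨l, hl1, hl2, hl3⟩ := hexl
  have hbs := hb0 s hs0 hs1
  refine ⟨j, k, l, angle (e j) (b s) / 2, angle (b s) (e (j + 1)) / 2, hk1, hkj, hl1, hl2,
    by have := angle_nonneg (e j) (b s); positivity,
    by have := angle_nonneg (b s) (e (j + 1)); positivity, ?_, ?_, ?_⟩
  · have := angle_split (u := e j) (v := e (j + 1)) hs0 hs1 hbs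
    simp only [hbdef]
    linarith
  · have h1 := angle_sum_ge (hunit k) (hunit 0) hbs hk
    have h2 := angle_le_angle_add_angle (e k) (e j) (b s)
    rw [angle_comm (e k) (e 0)] at h1
    linarith
  · have h1 := angle_sum_ge (hunit l) (hunit 0) hbs hl3
    have h2 := angle_le_angle_add_angle (e l) (e (j + 1)) (b s)
    rw [angle_comm (e l) (e (j + 1)), angle_comm (e (j + 1)) (b s)] at h2
    linarith

end Pool.Agent.Lib.MP_17bf10_co
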