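import Pool.Agent.Lib.MP_17bf10_co.Trig
import Pool.Agent.Lib.MP_17bf10_co.Geometry
import Pool.Agent.Lib.MP_17bf10_co.Moment
import Pool.Agent.Lib.MP_17bf10_co.Selection

set_option autoImplicit false

open InnerProductGeometry Finset

namespace Pool.Agent.Lib.MP_17bf10_co

variable {E : Type*} [NormedAddCommGroup E] [InnerProductSpace ℝ E]

theorem norm_sub_eq {u v : E} (hu : ‖u‖ = 1) (hv : ‖v‖ = 1) :
    ‖v - u‖ = 2 * Real.sin (angle u v / 2) := by
  have h0 := angle_nonneg u v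
  have h1 := angle_le_pi u v
  have hs : 0 ≤ Real.sin (angle u v / 2) :=
    Real.sin_nonneg_of_nonneg_of_le_pi (by linarith) (by linarith [Real.pi_pos])
  have h2 : ‖v - u‖ ^ 2 = (2 * Real.sin (angle u v / 2)) ^ 2 := by
    rw [norm_sub_sq_real, hu, hv]
    have h3 : inner ℝ v u = Real.cos (angle u v) := by
      rw [cos_angle, hu, hv, real_inner_comm]; ring
    have h4 := Real.cos_two_mul (angle u v / 2)
    have h5 := Real.sin_sq_add_cos_sq (angle u v / 2)
    have h6 : 2 * (angle u v / 2) = angle u v := by ring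
    rw [h6] at h4
    rw [h3, h4]
    linear_combination 4 * h5 * (-1)
  exact (sq_eq_sq₀ (norm_nonneg _) (by positivity)).1 h2

theorem half_angle_lt {u v : E} (hu : ‖u‖ = 1) (hv : ‖v‖ = 1) (h : u ≠ -v) :
    angle u v / 2 < Real.pi / 2 := by
  have h1 := angle_le_pi u v
  rcases eq_or_lt_of_le h1 with h2 | h2
  · exfalso
    have h3 := norm_sub_eq hu hv
    rw [h2, Real.sin_pi_div_two] at h3
    have h4 : inner ℝ u v = -1 := by
      have := cos_angle u v
      rw [h2, Real.cos_pi, hu, hv] at this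
      linarith
    have h5 : ‖u + v‖ ^ 2 = 0 := by
      rw [norm_add_sq_real, hu, hv, h4]; norm_num
    have h6 : u + v = 0 := by
      rw [← norm_eq_zero]
      exact pow_eq_zero_iff (two_ne_zero) |>.1 h5
    exact h (eq_neg_of_add_eq_zero_left h6)
  · linarith

theorem half_angle_pos {u v : E} (hu : ‖u‖ = 1) (hv : ‖v‖ = 1) (h : u ≠ v) :
    0 < angle u v / 2 := by
  have h0 := angle_nonneg u v
  rcases eq_or_lt_of_le h0 with h2 | h2
  · exfalso
    have h3 := norm_sub_eq hu hv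
    rw [← h2] at h3
    simp at h3
    exact h (sub_eq_zero.1 h3).symm
  · linarith

/-- the support function package -/
structure NData (S : Finset E) (N : E → ℝ) : Prop where
  zero : N 0 = 0
  ge : ∀ V, ∀ z ∈ PP S, - inner ℝ z V ≤ N V
  ex : ∀ V, ∃ z ∈ PP S, N V = - inner ℝ z V
  sub : ∀ V W, N (V + W) ≤ N V + N W
  q : ∀ V, ∃ q ∈ QQ S, N V = ‖V‖ - inner ℝ q V

theorem chainN {S : Finset E} {N : E → ℝ} (hN : NData S N) (e : ℕ → E) {a b : ℕ} (hab : a ≤ b) :
    N (e b - e a) ≤ ∑ i ∈ Ico a b, N (e (i + 1) - e i) := by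
  induction b, hab using Nat.le_induction with
  | base => simp [hN.zero]
  | succ b hab ih =>
    rw [sum_Ico_succ_top hab]
    have : e (b + 1) - e a = (e b - e a) + (e (b + 1) - e b) := by abel
    rw [this]
    exact (hN.sub _ _).trans (by linarith)

theorem final_general {S : Finset E} {N : E → ℝ} (hN : NData S N) {δ : ℝ} (hδ0 : 0 ≤ δ)
    (hδ1 : δ ≤ 1) (hδ : ∀ c ∈ S, ∀ c' ∈ S, ‖c - c'‖ ≤ δ) {m : ℕ} (V : Fin m → E) (s : Fin m → ℝ)
    (hV : ∑ g, V g = 0) (hs : ∀ g, ‖V g‖ = 2 * s g) {L : ℝ} (hL : ∑ g, N (V g) ≤ L)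
    (h1 : 2 < ∑ g, s g) (h2 : 2 < ∑ g, s g ^ 2 + (∑ g, s g - 2) ^ 2) : 4 - 2 * δ < L := by
  choose q hq1 hq2 using hN.q
  have hmom := moment V (fun g => q (V g)) hV
    (fun g h => QQ_diam hδ1 hδ0 hδ (hq1 (V g)) (hq1 (V h)))
  have e1 : ∑ g, ‖V g‖ = 2 * ∑ g, s g := by
    rw [mul_sum]; exact sum_congr rfl fun g _ => hs g
  have e2 : ∑ g, ‖V g‖ ^ 2 = 4 * ∑ g, s g ^ 2 := by
    rw [mul_sum]; exact sum_congr rfl fun g _ => by rw [hs g]; ring
  have e3 : ∑ g, N (V g) = (∑ g, ‖V g‖) - ∑ g, inner ℝ (q (V g)) (V g) := by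
    rw [← sum_sub_distrib]; exact sum_congr rfl fun g _ => hq2 (V g)
  refine scalar_final hδ0 hδ1 hmom (L := L) ?_ ?_ ?_
  · rw [← e3]; exact hL
  · rw [e1]; linarith
  · rw [e1, e2]
    set σ := ∑ g, s g
    set μ := ∑ g, s g ^ 2
    nlinarith

/-- the sequence of directions of a closed trajectory -/
structure Dir (n : ℕ) (e : ℕ → E) : Prop where
  per : ∀ i, e (i + n) = e i
  unit : ∀ i, ‖e i‖ = 1
  step : ∀ i, e i ≠ e (i + 1)
  cov : ∀ y : E, ∃ k, inner ℝ (e k) y ≤ 0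

theorem per_mul {n : ℕ} {e : ℕ → E} (h : ∀ i, e (i + n) = e i) (i r : ℕ) :
    e (i + n * r) = e i := by
  induction r with
  | zero => simp
  | succ r ih => rw [Nat.mul_succ, ← Nat.add_assoc, h, ih]

theorem per_mod {n : ℕ} {e : ℕ → E} (h : ∀ i, e (i + n) = e i) (i : ℕ) : e (i % n) = e i := by
  have := per_mul h (i % n) (i / n)
  rw [Nat.mod_add_div] at this
  exact this.symm

theorem Dir.rot {n : ℕ} (hn : 1 ≤ n) {e : ℕ → E} (h : Dir n e) (r : ℕ) :
    Dir n (fun i => e (i + r)) where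
  per i := by
    show e (i + n + r) = e (i + r)
    rw [show i + n + r = (i + r) + n by ring, h.per]
  unit i := h.unit _
  step i := by
    show e (i + r) ≠ e (i + 1 + r)
    rw [show i + 1 + r = (i + r) + 1 by ring]
    exact h.step _
  cov y := by
    obtain ⟨k, hk⟩ := h.cov y
    refine ⟨k + (n * r - r), ?_⟩
    show inner ℝ (e (k + (n * r - r) + r)) y ≤ 0
    have : r ≤ n * r := Nat.le_mul_of_pos_left r hn
    rw [show k + (n * r - r) + r = k + n * r by omega, per_mul h.per]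
    exact hk

theorem Dir.cov' {n : ℕ} (hn : 1 ≤ n) {e : ℕ → E} (h : Dir n e) (y : E) :
    ∃ k < n, inner ℝ (e k) y ≤ 0 := by
  obtain ⟨k, hk⟩ := h.cov y
  exact ⟨k % n, Nat.mod_lt _ hn, by rw [per_mod h.per]; exact hk⟩

theorem sum_rot {n : ℕ} {g : ℕ → ℝ} (h : ∀ i, g (i + n) = g i) (r : ℕ) :
    ∑ i ∈ range n, g (i + r) = ∑ i ∈ range n, g i := by
  induction r with
  | zero => simp
  | succ r ih =>
    rw [← ih]
    have h1 := sum_range_succ (fun i => g (i + r)) n
    have h2 := sum_range_succ' (fun i => g (i + r)) n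
    have h3 : g (n + r) = g (0 + r) := by
      rw [Nat.add_comm n r, h, Nat.zero_add]
    have h4 : ∑ i ∈ range n, g (i + (r + 1)) = ∑ i ∈ range n, g (i + 1 + r) := by
      refine sum_congr rfl fun i _ => ?_
      rw [show i + (r + 1) = i + 1 + r by ring]
    rw [h4]
    linarith

theorem core_aux {S : Finset E} {N : E → ℝ} (hN : NData S N) {δ : ℝ} (hδ0 : 0 ≤ δ)
    (hδ1 : δ ≤ 1) (hδ : ∀ c ∈ S, ∀ c' ∈ S, ‖c - c'‖ ≤ δ) {n : ℕ} (hn : 3 ≤ n) {e : ℕ → E}
    (he : Dir n e) (hanti : ∀ k l, e k ≠ -e l)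
    (hlong : Real.cos (angle (e 0) (e 1) / 2) < 1 / 7 ∨
      ∀ i, 1 / 7 ≤ Real.cos (angle (e i) (e (i + 1)) / 2)) :
    4 - 2 * δ < ∑ i ∈ range n, N (e (i + 1) - e i) := by
  obtain ⟨j, k, l, x, y, hk1, hkj, hjl, hln, hx, hy, hxy, hs1, hs2⟩ :=
    selection hn e he.unit hanti (he.cov' (by omega))
  have hu := he.unit
  have hen : e n = e 0 := by have := he.per 0; rwa [Nat.zero_add] at this
  have hj1 : 1 ≤ j := hk1.trans hkj
  have hxy' : x + y = angle (e j) (e (j + 1)) / 2 := by linarith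
  have hA : ∀ a b, 0 ≤ angle (e a) (e b) / 2 := fun a b => by
    have := angle_nonneg (e a) (e b); positivity
  have hB : ∀ a b, angle (e a) (e b) / 2 < Real.pi / 2 := fun a b =>
    half_angle_lt (hu a) (hu b) (hanti a b)
  have hsum : ∀ a b c : ℕ, a ≤ b → b ≤ c → (∑ i ∈ Ico a b, N (e (i + 1) - e i))
      + (∑ i ∈ Ico b c, N (e (i + 1) - e i)) = ∑ i ∈ Ico a c, N (e (i + 1) - e i) :=
    fun a b c h1 h2 => sum_Ico_consecutive _ h1 h2
  have c2 := chainN hN e hkj
  have c3 := chainN hN e (Nat.le_succ j)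
  have c4 := chainN hN e hjl
  have c5 := chainN hN e hln.le
  rw [Nat.succ_eq_add_one] at c3
  rw [hen] at c5
  have t2 := hsum 0 k j (Nat.zero_le _) hkj
  have t3 := hsum 0 j (j + 1) (Nat.zero_le _) (Nat.le_succ _)
  have t4 := hsum 0 (j + 1) l (Nat.zero_le _) hjl
  have t5 := hsum 0 l n (Nat.zero_le _) hln.le
  rw [range_eq_Ico]
  generalize hLdef : ∑ i ∈ Ico 0 n, N (e (i + 1) - e i) = L at t5 ⊢
  by_cases hc : 1 / 7 ≤ Real.cos (x + y)
  · -- five-gon
    obtain ⟨J1, J2⟩ := J5 (hA 0 k) (hA k j) (hA (j + 1) l) (hA l 0) hx hy (hB 0 k) (hB k j)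
      (hB (j + 1) l) (hB l 0) (by rw [hxy']; exact half_angle_pos (hu _) (hu _) (he.step j))
      (by rw [hxy']; exact hB _ _) hc (by linarith) (by linarith)
    rw [hxy'] at J1 J2
    have c1 := chainN hN e (Nat.zero_le k)
    refine final_general hN hδ0 hδ1 hδ
      ![e k - e 0, e j - e k, e (j + 1) - e j, e l - e (j + 1), e 0 - e l]
      ![Real.sin (angle (e 0) (e k) / 2), Real.sin (angle (e k) (e j) / 2),
        Real.sin (angle (e j) (e (j + 1)) / 2), Real.sin (angle (e (j + 1)) (e l) / 2),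
        Real.sin (angle (e l) (e 0) / 2)] ?_ ?_ ?_ ?_ ?_
    · simp [Fin.sum_univ_succ]
    · intro g
      fin_cases g <;> simp [norm_sub_eq, hu]
    · simp only [Fin.sum_univ_succ, Fin.sum_univ_zero]
      simp
      linarith
    · simp only [Fin.sum_univ_succ, Fin.sum_univ_zero]
      simp
      linarith
    · simp only [Fin.sum_univ_succ, Fin.sum_univ_zero]
      simp
      ring_nf at J1 ⊢
      linarith
  · -- six-gon
    push Not at hc
    have hc' := hc
    rw [hxy'] at hc'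
    have hl0 : Real.cos (angle (e 0) (e 1) / 2) < 1 / 7 := by
      rcases hlong with h | h
      · exact h
      · exact absurd (h j) (not_le.2 hc')
    have htri := angle_le_angle_add_angle (e 0) (e 1) (e k)
    obtain ⟨J1, J2⟩ := J6 (hA 0 1) (hA 1 k) (hA k j) (hA j (j + 1)) (hA (j + 1) l) (hA l 0) hx hy
      (hB 0 1) (hB 1 k) (hB k j) (hB j (j + 1)) (hB (j + 1) l) (hB l 0) hxy' hl0 hc'
      (by linarith) (by linarith)
    have c0 := chainN hN e (Nat.zero_le 1)
    have c1 := chainN hN e hk1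
    have t1 := hsum 0 1 k (Nat.zero_le _) hk1
    refine final_general hN hδ0 hδ1 hδ
      ![e 1 - e 0, e k - e 1, e j - e k, e (j + 1) - e j, e l - e (j + 1), e 0 - e l]
      ![Real.sin (angle (e 0) (e 1) / 2), Real.sin (angle (e 1) (e k) / 2),
        Real.sin (angle (e k) (e j) / 2),
        Real.sin (angle (e j) (e (j + 1)) / 2), Real.sin (angle (e (j + 1)) (e l) / 2),
        Real.sin (angle (e l) (e 0) / 2)] ?_ ?_ ?_ ?_ ?_
    · simp [Fin.sum_univ_succ]
    · intro g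
      fin_cases g <;> simp [norm_sub_eq, hu]
    · simp only [Fin.sum_univ_succ, Fin.sum_univ_zero]
      simp
      linarith
    · simp only [Fin.sum_univ_succ, Fin.sum_univ_zero]
      simp
      linarith
    · simp only [Fin.sum_univ_succ, Fin.sum_univ_zero]
      simp
      ring_nf at J1 ⊢
      linarith

theorem core_nonanti {S : Finset E} {N : E → ℝ} (hN : NData S N) {δ : ℝ} (hδ0 : 0 ≤ δ)
    (hδ1 : δ ≤ 1) (hδ : ∀ c ∈ S, ∀ c' ∈ S, ‖c - c'‖ ≤ δ) {n : ℕ} (hn : 3 ≤ n) {e : ℕ → E}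
    (he : Dir n e) (hanti : ∀ k l, e k ≠ -e l) :
    4 - 2 * δ < ∑ i ∈ range n, N (e (i + 1) - e i) := by
  by_cases h : ∃ r, Real.cos (angle (e r) (e (r + 1)) / 2) < 1 / 7
  · obtain ⟨r, hr⟩ := h
    have h1 := core_aux hN hδ0 hδ1 hδ hn (he.rot (by omega) r) (fun k l => hanti _ _)
      (Or.inl (by
        simp only [Nat.zero_add]
        rw [Nat.add_comm 1 r]
        exact hr))
    have h2 := sum_rot (n := n) (g := fun i => N (e (i + 1) - e i)) (fun i => by
      rw [show i + n + 1 = (i + 1) + n by ring, he.per, he.per]) r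
    rw [← h2]
    refine lt_of_lt_of_eq h1 (sum_congr rfl fun i _ => ?_)
    rw [show i + 1 + r = i + r + 1 by ring]
  · push Not at h
    exact core_aux hN hδ0 hδ1 hδ hn he hanti (Or.inr h)

theorem opp_bound {S : Finset E} {N : E → ℝ} (hN : NData S N) {δ : ℝ} (hδ0 : 0 ≤ δ)
    (hδ1 : δ ≤ 1) (hδ : ∀ c ∈ S, ∀ c' ∈ S, ‖c - c'‖ ≤ δ) (V : E) :
    (2 - δ) * ‖V‖ ≤ N V + N (-V) := by
  obtain ⟨q, hq, hq2⟩ := hN.q V
  obtain ⟨q', hq', hq2'⟩ := hN.q (-V)
  have h1 := QQ_diam hδ1 hδ0 hδ hq hq'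
  rw [hq2, hq2', norm_neg, inner_neg_right]
  have h2 := real_inner_le_norm (q - q') V
  rw [inner_sub_left] at h2
  have h3 : ‖q - q'‖ * ‖V‖ ≤ δ * ‖V‖ := mul_le_mul_of_nonneg_right h1 (norm_nonneg _)
  linarith

/-- antipodal case with a gap of at least two edges -/
theorem core_anti {S : Finset E} {N : E → ℝ} (hN : NData S N) {δ : ℝ} (hδ0 : 0 ≤ δ)
    (hδ1 : δ ≤ 1) (hδ : ∀ c ∈ S, ∀ c' ∈ S, ‖c - c'‖ ≤ δ) {n : ℕ} {e : ℕ → E}
    (he : Dir n e) {l : ℕ} (hl2 : 2 ≤ l) (hln : l < n) (hl : e 0 = - e l) :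
    4 - 2 * δ < ∑ i ∈ range n, N (e (i + 1) - e i) := by
  have hu := he.unit
  have hen : e n = e 0 := by have := he.per 0; rwa [Nat.zero_add] at this
  have hsum : ∀ a b c : ℕ, a ≤ b → b ≤ c → (∑ i ∈ Ico a b, N (e (i + 1) - e i))
      + (∑ i ∈ Ico b c, N (e (i + 1) - e i)) = ∑ i ∈ Ico a c, N (e (i + 1) - e i) :=
    fun a b c h1 h2 => sum_Ico_consecutive _ h1 h2
  have c1 := chainN hN e (Nat.zero_le 1)
  have c5 := chainN hN e hln.le
  rw [hen] at c5
  have t5 := hsum 0 l n (Nat.zero_le _) hln.le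
  rw [range_eq_Ico]
  have hW : e l - e 0 = (2 : ℝ) • e l := by rw [hl, two_smul]; abel
  have hWn : ‖e l - e 0‖ = 2 := by rw [hW, norm_smul, hu]; norm_num
  have hopp := opp_bound hN hδ0 hδ1 hδ (e l - e 0)
  rw [hWn, neg_sub] at hopp
  by_cases h1 : e 1 = e l
  · have c2 := chainN hN e (show 1 ≤ 2 by norm_num)
    have c3 := chainN hN e hl2
    have t1 := hsum 0 1 2 (by norm_num) (by norm_num)
    have t2 := hsum 0 2 l (by norm_num) hl2
    rw [← h1] at c3
    have hopp2 := opp_bound hN hδ0 hδ1 hδ (e 2 - e 1)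
    rw [neg_sub] at hopp2
    have hne : 0 < ‖e 2 - e 1‖ := norm_pos_iff.2 (sub_ne_zero.2 (he.step 1).symm)
    have hpos : 0 < (2 - δ) * ‖e 2 - e 1‖ := mul_pos (by linarith) hne
    rw [← h1] at hopp c5
    linarith
  · have c3 := chainN hN e (show 1 ≤ l by omega)
    have t1 := hsum 0 1 l (by norm_num) (by omega)
    -- strictness of subadditivity
    set V := e 1 - e 0 with hV
    set W := e l - e 1 with hWd
    have hVW : V + W = e l - e 0 := by rw [hV, hWd]; abel
    have hstrict : N (e l - e 0) < N V + N W := by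
      rw [← hVW]
      by_contra hcon
      push Not at hcon
      obtain ⟨y, hy, hyN⟩ := hN.ex (V + W)
      rw [hyN, inner_add_right] at hcon
      have g1 := hN.ge V y hy
      have g2 := hN.ge W y hy
      have hV0 : V ≠ 0 := sub_ne_zero.2 (he.step 0).symm
      have hW0 : W ≠ 0 := sub_ne_zero.2 (Ne.symm h1)
      have mk : ∀ U : E, U ≠ 0 → N U ≤ - inner ℝ y U → y - (-(‖U‖⁻¹ • U)) ∈ QQ S := by
        intro U hU0 hUN
        have hn : 0 < ‖U‖ := norm_pos_iff.2 hU0
        refine lemmaN hy ?_ ?_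
        · rw [norm_neg, norm_smul, norm_inv, norm_norm, inv_mul_cancel₀ hn.ne']
        · intro z hz
          have h2 := hN.ge U z hz
          rw [inner_neg_left, inner_smul_left, inner_sub_right]
          have h3 : 0 ≤ inner ℝ U z - inner ℝ U y := by
            rw [real_inner_comm z U, real_inner_comm y U]; linarith
          have h4 : 0 ≤ ‖U‖⁻¹ * (inner ℝ U z - inner ℝ U y) := by positivity
          simp only [conj_trivial]
          linarith
      have m1 := mk V hV0 (by linarith)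
      have m2 := mk W hW0 (by linarith)
      have h3 := QQ_diam hδ1 hδ0 hδ m1 m2
      have hVWin : inner ℝ V W = 0 := by
        rw [hV, hWd, hl]
        simp only [inner_sub_left, inner_sub_right, inner_neg_left, real_inner_self_eq_norm_sq, hu]
        rw [real_inner_comm (e 1) (e l)]
        ring
      have hnV : 0 < ‖V‖ := norm_pos_iff.2 hV0
      have hnW : 0 < ‖W‖ := norm_pos_iff.2 hW0
      have e1 : y - (-(‖V‖⁻¹ • V)) - (y - (-(‖W‖⁻¹ • W))) = ‖V‖⁻¹ • V - ‖W‖⁻¹ • W := by abel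
      have e2 : ‖‖V‖⁻¹ • V - ‖W‖⁻¹ • W‖ ^ 2 = 2 := by
        rw [norm_sub_sq_real, norm_smul, norm_smul, inner_smul_left, inner_smul_right, hVWin,
          norm_inv, norm_norm, norm_inv, norm_norm, inv_mul_cancel₀ hnV.ne',
          inv_mul_cancel₀ hnW.ne']
        simp
        norm_num
      rw [e1] at h3
      have h4 : ‖‖V‖⁻¹ • V - ‖W‖⁻¹ • W‖ ≤ 1 := h3.trans hδ1
      have h5 : ‖‖V‖⁻¹ • V - ‖W‖⁻¹ • W‖ ^ 2 ≤ 1 := pow_le_one₀ (norm_nonneg _) h4
      linarith
    linarith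

theorem core {S : Finset E} {N : E → ℝ} (hN : NData S N) {δ : ℝ} (hδ0 : 0 ≤ δ)
    (hδ1 : δ ≤ 1) (hδ : ∀ c ∈ S, ∀ c' ∈ S, ‖c - c'‖ ≤ δ) {n : ℕ} (hn : 3 ≤ n) {e : ℕ → E}
    (he : Dir n e) :
    4 - 2 * δ < ∑ i ∈ range n, N (e (i + 1) - e i) := by
  by_cases hanti : ∀ k l, e k ≠ -e l
  · exact core_nonanti hN hδ0 hδ1 hδ hn he hanti
  · push Not at hanti
    obtain ⟨k0, l0, hkl0⟩ := hanti
    -- reduce mod n
    have hrot : ∀ r, ∑ i ∈ range n, N (e (i + 1 + r) - e (i + r))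
        = ∑ i ∈ range n, N (e (i + 1) - e i) := by
      intro r
      have h2 := sum_rot (n := n) (g := fun i => N (e (i + 1) - e i)) (fun i => by
        rw [show i + n + 1 = (i + 1) + n by ring, he.per, he.per]) r
      rw [← h2]
      refine sum_congr rfl fun i _ => ?_
      rw [show i + 1 + r = i + r + 1 by ring]
    have main : ∀ k l, k < n → l < n → k < l → e k = - e l →
        4 - 2 * δ < ∑ i ∈ range n, N (e (i + 1) - e i) := by
      intro k l hk hl hkl hekl
      by_cases h2 : k + 2 ≤ l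
      · rw [← hrot k]
        refine core_anti hN hδ0 hδ1 hδ (he.rot (by omega) k) (l := l - k) (by omega) (by omega) ?_
        simp only [Nat.zero_add]
        rw [Nat.sub_add_cancel hkl.le]
        exact hekl
      · have hl1 : l = k + 1 := by omega
        rw [← hrot l]
        refine core_anti hN hδ0 hδ1 hδ (he.rot (by omega) l) (l := n - 1) (by omega) (by omega) ?_
        simp only [Nat.zero_add]
        rw [show n - 1 + l = k + n by omega, he.per, hekl, neg_neg]
    have hk := Nat.mod_lt k0 (show 0 < n by omega)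
    have hl := Nat.mod_lt l0 (show 0 < n by omega)
    have hekl : e (k0 % n) = - e (l0 % n) := by
      rw [per_mod he.per, per_mod he.per]; exact hkl0
    rcases lt_trichotomy (k0 % n) (l0 % n) with h | h | h
    · exact main _ _ hk hl h hekl
    · exfalso
      rw [h] at hekl
      have h3 : e (l0 % n) = 0 := by
        have h4 : (2 : ℝ) • e (l0 % n) = 0 := by
          rw [two_smul]
          nth_rewrite 1 [hekl]
          exact neg_add_cancel _
        exact (smul_eq_zero.1 h4).resolve_left (by norm_num)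
      have := he.unit (l0 % n)
      rw [h3, norm_zero] at this
      exact zero_ne_one this
    · exact main _ _ hl hk h (by rw [hekl, neg_neg])

end Pool.Agent.Lib.MP_17bf10_co
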