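import Pool.Agent.Lib.MP_17bf10_co.Core

set_option autoImplicit false

open InnerProductGeometry Finset

namespace Pool.Agent.Lib.MP_17bf10_co

variable {E : Type*} [NormedAddCommGroup E] [InnerProductSpace ℝ E]

theorem traj_bound {S : Finset E} {N : E → ℝ} (hN : NData S N) {δ : ℝ} (hδ0 : 0 ≤ δ)
    (hδ1 : δ ≤ 1) (hδ : ∀ c ∈ S, ∀ c' ∈ S, ‖c - c'‖ ≤ δ) {n : ℕ} (hn : 3 ≤ n) (f : ℕ → E)
    (hper : ∀ i, f (i + n) = f i) (hne : ∀ i, f (i + 1) - f i ≠ 0)
    (hw : ∀ i, ‖f (i + 1 + 1) - f (i + 1)‖⁻¹ • (f (i + 1 + 1) - f (i + 1))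
      - ‖f (i + 1) - f i‖⁻¹ • (f (i + 1) - f i) ≠ 0)
    (hsup : ∀ i, ∀ x ∈ PP S, 0 ≤ inner ℝ (‖f (i + 1 + 1) - f (i + 1)‖⁻¹ • (f (i + 1 + 1) - f (i + 1))
      - ‖f (i + 1) - f i‖⁻¹ • (f (i + 1) - f i)) (x - f (i + 1))) :
    4 - 2 * δ < ∑ i ∈ range n, ‖f (i + 1) - f i‖ := by
  set e : ℕ → E := fun i => ‖f (i + 1) - f i‖⁻¹ • (f (i + 1) - f i) with he
  have hlen : ∀ i, 0 < ‖f (i + 1) - f i‖ := fun i => norm_pos_iff.2 (hne i)
  have hfe : ∀ i, f (i + 1) - f i = ‖f (i + 1) - f i‖ • e i := by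
    intro i
    simp only [he]
    rw [smul_smul, mul_inv_cancel₀ (hlen i).ne', one_smul]
  have hdir : Dir n e := by
    refine ⟨?_, ?_, ?_, ?_⟩
    · intro i
      simp only [he]
      rw [show i + n + 1 = (i + 1) + n by ring, hper, hper]
    · intro i
      simp only [he]
      rw [norm_smul, norm_inv, norm_norm, inv_mul_cancel₀ (hlen i).ne']
    · intro i h
      apply hw i
      simp only [he] at h
      rw [← h, sub_self]
    · intro y
      by_contra hcon
      push Not at hcon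
      have h1 : ∑ i ∈ range n, inner ℝ (f (i + 1) - f i) y = 0 := by
        rw [← sum_inner, sum_range_sub]
        have := hper 0
        rw [Nat.zero_add] at this
        rw [this, sub_self, inner_zero_left]
      have h2 : 0 < ∑ i ∈ range n, inner ℝ (f (i + 1) - f i) y := by
        apply sum_pos
        · intro i _
          rw [hfe i, inner_smul_left]
          exact mul_pos (by simpa using hlen i) (hcon i)
        · exact ⟨0, mem_range.2 (by omega)⟩
      linarith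
  have hcore := core hN hδ0 hδ1 hδ hn hdir
  refine lt_of_lt_of_le hcore ?_
  have hNle : ∀ i, N (e (i + 1) - e i) ≤ - inner ℝ (f (i + 1)) (e (i + 1) - e i) := by
    intro i
    obtain ⟨z, hz, hz2⟩ := hN.ex (e (i + 1) - e i)
    have h1 := hsup i z hz
    rw [hz2]
    have h2 : 0 ≤ inner ℝ (e (i + 1) - e i) (z - f (i + 1)) := h1
    rw [inner_sub_right, real_inner_comm z, real_inner_comm (f (i + 1))] at h2
    linarith
  have hshift : ∑ i ∈ range n, inner ℝ (f (i + 1)) (e (i + 1))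
      = ∑ i ∈ range n, inner ℝ (f i) (e i) :=
    sum_rot (n := n) (g := fun i => inner ℝ (f i) (e i)) (fun i => by rw [hper, hdir.per]) 1
  have hL : ∑ i ∈ range n, ‖f (i + 1) - f i‖
      = ∑ i ∈ range n, - inner ℝ (f (i + 1)) (e (i + 1) - e i) := by
    have h3 : ∀ i, ‖f (i + 1) - f i‖ = inner ℝ (f (i + 1)) (e i) - inner ℝ (f i) (e i) := by
      intro i
      rw [← inner_sub_left]
      nth_rewrite 2 [hfe i]
      rw [inner_smul_left, real_inner_self_eq_norm_sq, hdir.unit]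
      simp
    rw [sum_congr rfl fun i _ => h3 i, sum_sub_distrib, ← hshift, ← sum_sub_distrib]
    refine sum_congr rfl fun i _ => ?_
    rw [inner_sub_right]; ring
  rw [hL]
  exact sum_le_sum fun i _ => hNle i

theorem finRotate_mod {n : ℕ} (hn : 0 < n) (m : ℕ) :
    finRotate n ⟨m % n, Nat.mod_lt _ hn⟩ = ⟨(m + 1) % n, Nat.mod_lt _ hn⟩ := by
  obtain ⟨k, rfl⟩ : ∃ k, n = k + 1 := ⟨n - 1, by omega⟩
  rw [finRotate_apply]
  apply Fin.ext
  rw [Fin.val_add]
  simp [Nat.add_mod]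

/-- bound for every closed trajectory with at least three vertices, in the frozen form -/
theorem frozen_bound {S : Finset E} {N : E → ℝ} (hN : NData S N) {δ : ℝ} (hδ0 : 0 ≤ δ)
    (hδ1 : δ ≤ 1) (hδ : ∀ c ∈ S, ∀ c' ∈ S, ‖c - c'‖ ≤ δ) {n : ℕ} (hn : 3 ≤ n) (p : Fin n → E)
    (hp : ∀ i : Fin n,
        p i ∈ frontier (⋂ c ∈ S, Metric.closedBall c (1 : ℝ)) ∧
        p i ≠ p (finRotate n i) ∧
        ((dist (p (finRotate n i)) (p i))⁻¹ • (p (finRotate n i) - p i)
          + (dist (p ((finRotate n).symm i)) (p i))⁻¹ • (p ((finRotate n).symm i) - p i)) ≠ 0 ∧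
        ∀ x ∈ (⋂ c ∈ S, Metric.closedBall c (1 : ℝ)),
          0 ≤ inner ℝ ((dist (p (finRotate n i)) (p i))⁻¹ • (p (finRotate n i) - p i)
                + (dist (p ((finRotate n).symm i)) (p i))⁻¹ • (p ((finRotate n).symm i) - p i))
               (x - p i)) :
    4 - 2 * δ < ∑ i, dist (p i) (p (finRotate n i)) := by
  have hn0 : 0 < n := by omega
  set f : ℕ → E := fun i => p ⟨i % n, Nat.mod_lt _ hn0⟩ with hf
  have hrot : ∀ i : ℕ, p (finRotate n ⟨i % n, Nat.mod_lt _ hn0⟩) = f (i + 1) := by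
    intro i; rw [finRotate_mod hn0]
  have hsymm : ∀ i : ℕ, p ((finRotate n).symm ⟨(i + 1) % n, Nat.mod_lt _ hn0⟩) = f i := by
    intro i
    rw [← finRotate_mod hn0, Equiv.symm_apply_apply]
  have hw : ∀ i : ℕ, ((dist (f (i + 1 + 1)) (f (i + 1)))⁻¹ • (f (i + 1 + 1) - f (i + 1))
          + (dist (f i) (f (i + 1)))⁻¹ • (f i - f (i + 1)))
      = ‖f (i + 1 + 1) - f (i + 1)‖⁻¹ • (f (i + 1 + 1) - f (i + 1))
      - ‖f (i + 1) - f i‖⁻¹ • (f (i + 1) - f i) := by
    intro i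
    rw [dist_eq_norm, dist_eq_norm, norm_sub_rev (f i) (f (i + 1)), ← neg_sub (f (i + 1)) (f i),
      smul_neg]
    abel
  have hb := traj_bound hN hδ0 hδ1 hδ hn f ?_ ?_ ?_ ?_
  · refine lt_of_lt_of_eq hb ?_
    rw [← Fin.sum_univ_eq_sum_range (fun i => ‖f (i + 1) - f i‖) n]
    refine sum_congr rfl fun i _ => ?_
    have h1 : f (i : ℕ) = p i := by
      simp only [hf]
      congr 1
      apply Fin.ext
      exact Nat.mod_eq_of_lt i.2
    have h2 := hrot (i : ℕ)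
    have h3 : (⟨(i : ℕ) % n, Nat.mod_lt _ hn0⟩ : Fin n) = i := by
      apply Fin.ext
      exact Nat.mod_eq_of_lt i.2
    rw [h3] at h2
    rw [h1, ← h2, dist_comm, dist_eq_norm]
  · intro i
    simp only [hf, Nat.add_mod_right]
  · intro i h
    have := (hp ⟨i % n, Nat.mod_lt _ hn0⟩).2.1
    rw [hrot] at this
    exact this (sub_eq_zero.1 h).symm
  · intro i
    have := (hp ⟨(i + 1) % n, Nat.mod_lt _ hn0⟩).2.2.1
    rw [hrot, hsymm] at this
    rw [← hw i]
    exact this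
  · intro i x hx
    have := (hp ⟨(i + 1) % n, Nat.mod_lt _ hn0⟩).2.2.2 x hx
    rw [hrot, hsymm] at this
    rw [← hw i]
    exact this

end Pool.Agent.Lib.MP_17bf10_co
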