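import Mathlib

set_option autoImplicit false

open Real

namespace Pool.Agent.Lib.MP_17bf10_co

/-- Basic algebraic step for the three-sine inequality. -/
theorem pair_ineq {a b c : ℝ} (ha : 0 ≤ a) (hb : 0 ≤ b)
    (hc : c ≤ 1 - 2 * a * b) (h : 0 ≤ (1 - 2 * a) * (1 - 2 * b)) :
    a * b * c ≤ (1 - a) * (1 - b) * (1 - c) := by
  have hr : 0 ≤ 1 - a - b + 2 * a * b := by nlinarith
  have h1 : (1 - a - b + 2 * a * b) * c ≤ (1 - a - b + 2 * a * b) * (1 - 2 * a * b) :=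
    mul_le_mul_of_nonneg_left hc hr
  have hab : 0 ≤ a * b := mul_nonneg ha hb
  have h2 : 0 ≤ a * b * ((1 - 2 * a) * (1 - 2 * b)) := mul_nonneg hab h
  nlinarith

theorem sin_le_of_sum {A B C : ℝ} (h : A + B + C = π / 2) :
    sin C ≤ 1 - 2 * sin A * sin B := by
  have hC : C = π / 2 - (A + B) := by linarith
  have h1 : sin C = cos A * cos B - sin A * sin B := by
    rw [hC, sin_pi_div_two_sub, cos_add]
  have h2 : cos A * cos B + sin A * sin B ≤ 1 := by
    rw [← cos_sub]; exact cos_le_one _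
  linarith

theorem sum_sq_of_sum {A B C : ℝ} (h : A + B + C = π / 2) :
    sin A ^ 2 + sin B ^ 2 + sin C ^ 2 + 2 * sin C * sin A * sin B = 1 := by
  have hC : C = π / 2 - (A + B) := by linarith
  have h1 : sin C = cos A * cos B - sin A * sin B := by
    rw [hC, sin_pi_div_two_sub, cos_add]
  have hA := sin_sq_add_cos_sq A
  have hB := sin_sq_add_cos_sq B
  have hA' : cos A ^ 2 = 1 - sin A ^ 2 := by linarith
  have hB' : cos B ^ 2 = 1 - sin B ^ 2 := by linarith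
  have key : (sin C + sin A * sin B) ^ 2 = cos A ^ 2 * cos B ^ 2 := by
    rw [h1]; ring
  rw [hA', hB'] at key
  nlinarith [key]

/-- Three angles with sum `π/2`. -/
theorem three_sin {A B C : ℝ} (hA : 0 ≤ A) (hB : 0 ≤ B) (hC : 0 ≤ C)
    (h : A + B + C = π / 2) :
    2 * sin C * sin A * sin B ≤ (sin A + sin B + sin C - 1) ^ 2 := by
  have hpi := pi_pos
  have a0 : 0 ≤ sin A := sin_nonneg_of_nonneg_of_le_pi hA (by linarith)
  have b0 : 0 ≤ sin B := sin_nonneg_of_nonneg_of_le_pi hB (by linarith)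
  have c0 : 0 ≤ sin C := sin_nonneg_of_nonneg_of_le_pi hC (by linarith)
  have hsq := sum_sq_of_sum h
  have hc := sin_le_of_sum h
  have hb := sin_le_of_sum (A := A) (B := C) (C := B) (by linarith)
  have ha := sin_le_of_sum (A := B) (B := C) (C := A) (by linarith)
  set a := sin A
  set b := sin B
  set c := sin C
  have key : a * b * c ≤ (1 - a) * (1 - b) * (1 - c) := by
    rcases le_total 0 (1 - 2 * a) with h1 | h1 <;> rcases le_total 0 (1 - 2 * b) with h2 | h2 <;>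
      rcases le_total 0 (1 - 2 * c) with h3 | h3
    · exact pair_ineq a0 b0 hc (mul_nonneg h1 h2)
    · exact pair_ineq a0 b0 hc (mul_nonneg h1 h2)
    · have := pair_ineq a0 c0 hb (mul_nonneg h1 h3); nlinarith
    · have := pair_ineq b0 c0 ha (mul_nonneg_of_nonpos_of_nonpos h2 h3); nlinarith
    · have := pair_ineq b0 c0 ha (mul_nonneg h2 h3); nlinarith
    · have := pair_ineq a0 c0 hb (mul_nonneg_of_nonpos_of_nonpos h1 h3); nlinarith
    · exact pair_ineq a0 b0 hc (mul_nonneg_of_nonpos_of_nonpos h1 h2)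
    · exact pair_ineq a0 b0 hc (mul_nonneg_of_nonpos_of_nonpos h1 h2)
  have e : (a + b + c - 1) ^ 2 = 2 * ((1 - a) * (1 - b) * (1 - c)) := by nlinarith [hsq]
  rw [e]; nlinarith [key]

/-- `1 + sin y ≤ cos x + sin (x + y)` for `x + y ≤ π/2`. -/
theorem cos_add_sin {x y : ℝ} (hx : 0 ≤ x) (hy : 0 ≤ y) (hxy : x + y ≤ π / 2) :
    1 + sin y ≤ cos x + sin (x + y) := by
  have hpi := pi_pos
  have h1 : sin (x + y) - sin y = 2 * sin (x / 2) * cos (y + x / 2) := by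
    have := sin_sub_sin (x + y) y
    rw [this]
    congr 2 <;> ring_nf
  have h2 : 1 - cos x = 2 * sin (x / 2) * sin (x / 2) := by
    have h6 := cos_two_mul (x / 2)
    have h3 := sin_sq_add_cos_sq (x / 2)
    have h7 : 2 * (x / 2) = x := by ring
    rw [h7] at h6
    linear_combination (-1) * h6 - 2 * h3
  have h4 : sin (x / 2) ≤ cos (y + x / 2) := by
    rw [← cos_pi_div_two_sub]
    apply cos_le_cos_of_nonneg_of_le_pi <;> linarith
  have h5 : 0 ≤ sin (x / 2) := sin_nonneg_of_nonneg_of_le_pi (by linarith) (by linarith)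
  nlinarith

theorem sin_add_le {x y : ℝ} (hx : 0 ≤ x) (hy : 0 ≤ y) (hx' : x ≤ π) (hy' : y ≤ π) :
    sin (x + y) ≤ sin x + sin y := by
  rw [sin_add]
  have h1 := sin_nonneg_of_nonneg_of_le_pi hx hx'
  have h2 := sin_nonneg_of_nonneg_of_le_pi hy hy'
  nlinarith [cos_le_one x, cos_le_one y]

/-- the defect `sin x + sin y - sin (x+y)` -/
theorem eps_sq {x y : ℝ} (hx : 0 ≤ x) (hy : 0 ≤ y) (hxy : x + y < π / 2)
    (hc : 1 / 7 ≤ cos (x + y)) :
    (sin x + sin y - sin (x + y)) ^ 2 ≤ 2 * sin x * sin y * cos (x + y) ∧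
    (0 < x → 0 < y → (sin x + sin y - sin (x + y)) ^ 2 < 2 * sin x * sin y * cos (x + y) ∧
      0 < sin x + sin y - sin (x + y)) := by
  have hpi := pi_pos
  obtain ⟨X, rfl⟩ : ∃ X, x = 2 * X := ⟨x / 2, by ring⟩
  obtain ⟨Y, rfl⟩ : ∃ Y, y = 2 * Y := ⟨y / 2, by ring⟩
  have hsX : sin X ^ 2 = 1 - cos X ^ 2 := by have := sin_sq_add_cos_sq X; linarith
  have hsY : sin Y ^ 2 = 1 - cos Y ^ 2 := by have := sin_sq_add_cos_sq Y; linarith
  have hXY : 2 * X + 2 * Y = 2 * (X + Y) := by ring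
  rw [hXY] at hc ⊢
  have e1 : sin (2 * X) = 2 * sin X * cos X := sin_two_mul X
  have e2 : sin (2 * Y) = 2 * sin Y * cos Y := sin_two_mul Y
  have e3 : sin (2 * (X + Y)) = 2 * sin (X + Y) * cos (X + Y) := sin_two_mul (X + Y)
  have e4 : cos (2 * (X + Y)) = 2 * cos (X + Y) ^ 2 - 1 := cos_two_mul (X + Y)
  have e5 : sin (2 * X) + sin (2 * Y) - sin (2 * (X + Y)) = 4 * sin X * sin Y * sin (X + Y) := by
    rw [e1, e2, e3, sin_add, cos_add]
    have hsX' : cos X ^ 2 = 1 - sin X ^ 2 := by linarith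
    have hsY' : cos Y ^ 2 = 1 - sin Y ^ 2 := by linarith
    have : 2 * sin X * cos X + 2 * sin Y * cos Y
        - 2 * (sin X * cos Y + cos X * sin Y) * (cos X * cos Y - sin X * sin Y)
        = 2 * sin X * cos X + 2 * sin Y * cos Y - 2 * sin X * cos X * cos Y ^ 2
          + 2 * sin X ^ 2 * sin Y * cos Y - 2 * cos X ^ 2 * sin Y * cos Y
          + 2 * sin Y ^ 2 * sin X * cos X := by ring
    rw [this, hsX', hsY']
    ring
  have sX : 0 ≤ sin X := sin_nonneg_of_nonneg_of_le_pi (by linarith) (by linarith)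
  have sY : 0 ≤ sin Y := sin_nonneg_of_nonneg_of_le_pi (by linarith) (by linarith)
  have cX : 0 < cos X := cos_pos_of_mem_Ioo ⟨by linarith, by linarith⟩
  have cY : 0 < cos Y := cos_pos_of_mem_Ioo ⟨by linarith, by linarith⟩
  have hC0 : 0 < cos (X + Y) := cos_pos_of_mem_Ioo ⟨by linarith, by linarith⟩
  have hCv : cos (X + Y) = cos X * cos Y - sin X * sin Y := cos_add X Y
  have hCm : cos X * cos Y + sin X * sin Y ≤ 1 := by rw [← cos_sub]; exact cos_le_one _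
  have hS : sin (X + Y) ^ 2 = 1 - cos (X + Y) ^ 2 := by
    have := sin_sq_add_cos_sq (X + Y); linarith
  rw [e4] at hc
  have hC2 : 4 / 7 ≤ cos (X + Y) ^ 2 := by linarith
  have hC1 : 3 / 4 < cos (X + Y) := by
    by_contra hcon
    push Not at hcon
    nlinarith
  set C := cos (X + Y) with hCdef
  set u := sin X * sin Y with hu
  set v := cos X * cos Y with hv
  have hu0 : 0 ≤ u := mul_nonneg sX sY
  have huv : v = C + u := by linarith
  have hu8 : u ≤ 1 / 8 := by nlinarith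
  have key : 2 * u * (1 - C ^ 2) < v * (2 * C ^ 2 - 1) := by
    rw [huv]
    have h1 : u * (3 - 4 * C ^ 2) ≤ 1 / 8 * (5 / 7) := by
      nlinarith
    have h2 : 3 / 4 * (1 / 7) < C * (2 * C ^ 2 - 1) := by
      nlinarith
    nlinarith
  have lhs : (4 * sin X * sin Y * sin (X + Y)) ^ 2 = 8 * u * (2 * u * (1 - C ^ 2)) := by
    have : (4 * sin X * sin Y * sin (X + Y)) ^ 2 = 16 * u ^ 2 * sin (X + Y) ^ 2 := by
      rw [hu]; ring
    rw [this, hS]; ring
  have rhs : 2 * (2 * sin X * cos X) * (2 * sin Y * cos Y) * (2 * C ^ 2 - 1)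
      = 8 * u * (v * (2 * C ^ 2 - 1)) := by
    rw [hu, hv]; ring
  rw [e5, e1, e2, e4, lhs, rhs]
  constructor
  · exact mul_le_mul_of_nonneg_left key.le (by linarith)
  · intro hx0 hy0
    have sX' : 0 < sin X := sin_pos_of_pos_of_lt_pi (by linarith) (by linarith)
    have sY' : 0 < sin Y := sin_pos_of_pos_of_lt_pi (by linarith) (by linarith)
    have sXY' : 0 < sin (X + Y) := sin_pos_of_pos_of_lt_pi (by linarith) (by linarith)
    have hu' : 0 < u := mul_pos sX' sY'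
    constructor
    · exact mul_lt_mul_of_pos_left key (by linarith)
    · positivity

theorem sin_add_cos_gt {x : ℝ} (hx : 0 < x) (hx' : x < π / 2) : 1 < sin x + cos x := by
  have h1 : 0 < sin x := sin_pos_of_pos_of_lt_pi hx (by linarith [pi_pos])
  have h2 : 0 < cos x := cos_pos_of_mem_Ioo ⟨by linarith, hx'⟩
  have h3 := sin_sq_add_cos_sq x
  by_contra hcon
  push Not at hcon
  nlinarith [mul_pos h1 h2]

/-- exact version of the five-angle inequality -/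
theorem J5_exact {b1 b2 b4 b5 x y : ℝ} (h1 : 0 ≤ b1) (h2 : 0 ≤ b2) (h4 : 0 ≤ b4) (h5 : 0 ≤ b5)
    (hx : 0 ≤ x) (hy : 0 ≤ y) (hb1 : b1 < π / 2) (hb2 : b2 < π / 2) (hb4 : b4 < π / 2)
    (hb5 : b5 < π / 2) (hxy0 : 0 < x + y) (hxy : x + y < π / 2) (hc : 1 / 7 ≤ cos (x + y))
    (e1 : b1 + b2 + x = π / 2) (e2 : b4 + b5 + y = π / 2) :
    2 < sin b1 ^ 2 + sin b2 ^ 2 + sin (x + y) ^ 2 + sin b4 ^ 2 + sin b5 ^ 2
      + (sin b1 + sin b2 + sin (x + y) + sin b4 + sin b5 - 2) ^ 2 ∧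
    2 < sin b1 + sin b2 + sin (x + y) + sin b4 + sin b5 := by
  have hpi := pi_pos
  have q1 := sum_sq_of_sum e1
  have q2 := sum_sq_of_sum e2
  have t1 := three_sin h1 h2 hx e1
  have t2 := three_sin h4 h5 hy e2
  have s12 : cos x ≤ sin b1 + sin b2 := by
    have := sin_add_le h1 h2 (by linarith) (by linarith)
    have e : b1 + b2 = π / 2 - x := by linarith
    rwa [e, sin_pi_div_two_sub] at this
  have s45 : cos y ≤ sin b4 + sin b5 := by
    have := sin_add_le h4 h5 (by linarith) (by linarith)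
    have e : b4 + b5 = π / 2 - y := by linarith
    rwa [e, sin_pi_div_two_sub] at this
  have c1 := cos_add_sin hx hy hxy.le
  have c2 := cos_add_sin hy hx (by linarith)
  rw [add_comm y x] at c2
  obtain ⟨f1, f2⟩ := eps_sq hx hy hxy hc
  have s3 : sin (x + y) ^ 2 = sin x ^ 2 + sin y ^ 2 + 2 * sin x * sin y * cos (x + y) := by
    rw [sin_add, cos_add]
    have hx2 : cos x ^ 2 = 1 - sin x ^ 2 := by have := sin_sq_add_cos_sq x; linarith
    have hy2 : cos y ^ 2 = 1 - sin y ^ 2 := by have := sin_sq_add_cos_sq y; linarith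
    have : (sin x * cos y + cos x * sin y) ^ 2
        = sin x ^ 2 * cos y ^ 2 + cos x ^ 2 * sin y ^ 2
          + 2 * sin x * cos y * cos x * sin y := by ring
    rw [this, hx2, hy2]; ring
  have hP : sin x + sin y - sin (x + y) ≤ sin b1 + sin b2 + sin x - 1 := by linarith
  have hR : sin x + sin y - sin (x + y) ≤ sin b4 + sin b5 + sin y - 1 := by linarith
  have e0 : 0 ≤ sin x + sin y - sin (x + y) := by
    have := sin_add_le hx hy (by linarith) (by linarith); linarith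
  set P := sin b1 + sin b2 + sin x - 1 with hPdef
  set R := sin b4 + sin b5 + sin y - 1 with hRdef
  set ε := sin x + sin y - sin (x + y) with hεdef
  have hsum : sin b1 + sin b2 + sin (x + y) + sin b4 + sin b5 - 2 = P + R - ε := by
    rw [hPdef, hRdef, hεdef]; ring
  have hJ : sin b1 ^ 2 + sin b2 ^ 2 + sin (x + y) ^ 2 + sin b4 ^ 2 + sin b5 ^ 2
      + (sin b1 + sin b2 + sin (x + y) + sin b4 + sin b5 - 2) ^ 2 - 2
      = (P ^ 2 - 2 * sin x * sin b1 * sin b2) + (R ^ 2 - 2 * sin y * sin b4 * sin b5)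
        + 2 * ((P - ε) * (R - ε)) + (2 * sin x * sin y * cos (x + y) - ε ^ 2) := by
    rw [hsum, s3]
    linear_combination q1 + q2
  have hprod : 0 ≤ (P - ε) * (R - ε) := mul_nonneg (by linarith) (by linarith)
  rcases eq_or_lt_of_le hx with hx0 | hx0
  · -- x = 0
    subst hx0
    have hb1' : 0 < b1 := by linarith
    have hPpos : 0 < P := by
      have := sin_add_cos_gt hb1' hb1
      have e : b2 = π / 2 - b1 := by linarith
      rw [hPdef, e, sin_pi_div_two_sub, sin_zero]; linarith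
    have hε : ε = 0 := by rw [hεdef]; simp
    rw [hε] at hJ hsum hprod hR
    simp only [sin_zero, mul_zero, zero_mul, sub_zero] at hJ hprod
    constructor
    · have : 0 < P ^ 2 := by positivity
      linarith
    · linarith
  · rcases eq_or_lt_of_le hy with hy0 | hy0
    · subst hy0
      have hb4' : 0 < b4 := by linarith
      have hRpos : 0 < R := by
        have := sin_add_cos_gt hb4' hb4
        have e : b5 = π / 2 - b4 := by linarith
        rw [hRdef, e, sin_pi_div_two_sub, sin_zero]; linarith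
      have hε : ε = 0 := by rw [hεdef]; simp
      rw [hε] at hJ hsum hprod hP
      simp only [sin_zero, mul_zero, zero_mul, sub_zero] at hJ hprod
      constructor
      · have : 0 < R ^ 2 := by positivity
        linarith
      · linarith
    · obtain ⟨g1, g2⟩ := f2 hx0 hy0
      constructor
      · linarith
      · linarith

theorem split_angle {b1 b2 θ : ℝ} (h1 : 0 ≤ b1) (h2 : 0 ≤ b2) (hθ : 0 ≤ θ) (h : θ ≤ b1 + b2) :
    ∃ b1' b2', 0 ≤ b1' ∧ 0 ≤ b2' ∧ b1' ≤ b1 ∧ b2' ≤ b2 ∧ b1' + b2' = θ := by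
  rcases le_total b1 θ with hh | hh
  · exact ⟨b1, θ - b1, h1, by linarith, le_refl _, by linarith, by ring⟩
  · exact ⟨θ, 0, hθ, le_refl _, hh, h2, by ring⟩

theorem sin_mono' {a b : ℝ} (ha : 0 ≤ a) (hab : a ≤ b) (hb : b ≤ π / 2) : sin a ≤ sin b :=
  sin_le_sin_of_le_of_le_pi_div_two (by linarith [pi_pos]) hb hab

/-- five-angle inequality -/
theorem J5 {b1 b2 b4 b5 x y : ℝ} (h1 : 0 ≤ b1) (h2 : 0 ≤ b2) (h4 : 0 ≤ b4) (h5 : 0 ≤ b5)
    (hx : 0 ≤ x) (hy : 0 ≤ y) (hb1 : b1 < π / 2) (hb2 : b2 < π / 2) (hb4 : b4 < π / 2)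
    (hb5 : b5 < π / 2) (hxy0 : 0 < x + y) (hxy : x + y < π / 2) (hc : 1 / 7 ≤ cos (x + y))
    (e1 : π / 2 ≤ b1 + b2 + x) (e2 : π / 2 ≤ b4 + b5 + y) :
    2 < sin b1 ^ 2 + sin b2 ^ 2 + sin (x + y) ^ 2 + sin b4 ^ 2 + sin b5 ^ 2
      + (sin b1 + sin b2 + sin (x + y) + sin b4 + sin b5 - 2) ^ 2 ∧
    2 < sin b1 + sin b2 + sin (x + y) + sin b4 + sin b5 := by
  obtain ⟨b1', b2', i1, i2, j1, j2, k1⟩ := split_angle (θ := π / 2 - x) h1 h2 (by linarith) (by linarith)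
  obtain ⟨b4', b5', i4, i5, j4, j5, k2⟩ := split_angle (θ := π / 2 - y) h4 h5 (by linarith) (by linarith)
  obtain ⟨J, K⟩ := J5_exact i1 i2 i4 i5 hx hy (by linarith) (by linarith) (by linarith) (by linarith)
    hxy0 hxy hc (by linarith) (by linarith)
  have m1 := sin_mono' i1 j1 hb1.le
  have m2 := sin_mono' i2 j2 hb2.le
  have m4 := sin_mono' i4 j4 hb4.le
  have m5 := sin_mono' i5 j5 hb5.le
  have n1 : 0 ≤ sin b1' := sin_nonneg_of_nonneg_of_le_pi i1 (by linarith [pi_pos])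
  have n2 : 0 ≤ sin b2' := sin_nonneg_of_nonneg_of_le_pi i2 (by linarith [pi_pos])
  have n4 : 0 ≤ sin b4' := sin_nonneg_of_nonneg_of_le_pi i4 (by linarith [pi_pos])
  have n5 : 0 ≤ sin b5' := sin_nonneg_of_nonneg_of_le_pi i5 (by linarith [pi_pos])
  have r1 : sin b1' ^ 2 ≤ sin b1 ^ 2 := by gcongr
  have r2 : sin b2' ^ 2 ≤ sin b2 ^ 2 := by gcongr
  have r4 : sin b4' ^ 2 ≤ sin b4 ^ 2 := by gcongr
  have r5 : sin b5' ^ 2 ≤ sin b5 ^ 2 := by gcongr
  have r6 : (sin b1' + sin b2' + sin (x + y) + sin b4' + sin b5' - 2) ^ 2 ≤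
      (sin b1 + sin b2 + sin (x + y) + sin b4 + sin b5 - 2) ^ 2 := by
    have : 0 ≤ sin b1' + sin b2' + sin (x + y) + sin b4' + sin b5' - 2 := by linarith
    gcongr
  constructor <;> linarith

theorem two_sin_ge {a b θ : ℝ} (ha : 0 ≤ a) (hb : 0 ≤ b) (ha' : a ≤ π / 2) (hb' : b ≤ π / 2)
    (hθ : 0 ≤ θ) (h : θ ≤ a + b) : sin θ ≤ sin a + sin b := by
  obtain ⟨a', b', i1, i2, j1, j2, k⟩ := split_angle ha hb hθ h
  have m1 := sin_mono' i1 j1 ha'
  have m2 := sin_mono' i2 j2 hb'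
  have := sin_add_le i1 i2 (by linarith [pi_pos]) (by linarith [pi_pos])
  rw [k] at this
  linarith

theorem four_sq (a b c d : ℝ) : (a + b + c + d) ^ 2 / 4 ≤ a ^ 2 + b ^ 2 + c ^ 2 + d ^ 2 := by
  nlinarith [sq_nonneg (a - b), sq_nonneg (a - c), sq_nonneg (a - d), sq_nonneg (b - c),
      sq_nonneg (b - d), sq_nonneg (c - d)]

theorem long_bounds {s c : ℝ} (hs : 0 ≤ s) (hc : 0 ≤ c) (hc' : c ≤ 1 / 7)
    (h : s ^ 2 = 1 - c ^ 2) : 989 / 1000 ≤ s ∧ 1 - s ≤ 503 / 1000 * c ^ 2 := by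
  have hc2 : c ^ 2 ≤ 1 / 49 := by nlinarith
  have h1 : 989 / 1000 ≤ s := by
    by_contra hcon
    push Not at hcon
    nlinarith
  refine ⟨h1, ?_⟩
  have h2 : (1 - s) * (1 + s) = c ^ 2 := by linear_combination (-1) * h
  have h3 : s ≤ 1 := by nlinarith
  have h4 : (1 - s) * (1989 / 1000) ≤ (1 - s) * (1 + s) :=
    mul_le_mul_of_nonneg_left (by linarith) (by linarith)
  nlinarith

theorem long_bounds2 {s s' c c' : ℝ} (hs : 989 / 1000 ≤ s) (hs' : 989 / 1000 ≤ s')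
    (hc : 0 ≤ c) (hc0 : 0 ≤ c') : 989 / 1000 * (c + c') ≤ c * s' + s * c' := by
  nlinarith [mul_le_mul_of_nonneg_left hs' hc, mul_le_mul_of_nonneg_right hs hc0]

/-- six-angle inequality with two long edges -/
theorem J6 {b0 b1 b2 b3 b4 b5 x y : ℝ} (h0 : 0 ≤ b0) (h1 : 0 ≤ b1) (h2 : 0 ≤ b2) (h3 : 0 ≤ b3)
    (h4 : 0 ≤ b4) (h5 : 0 ≤ b5)
    (hx : 0 ≤ x) (hy : 0 ≤ y) (hb0 : b0 < π / 2) (hb1 : b1 < π / 2) (hb2 : b2 < π / 2)
    (hb3 : b3 < π / 2) (hb4 : b4 < π / 2)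
    (hb5 : b5 < π / 2) (hxy : x + y = b3) (hc0 : cos b0 < 1 / 7) (hc3 : cos b3 < 1 / 7)
    (e1 : π / 2 ≤ b0 + b1 + b2 + x) (e2 : π / 2 ≤ b4 + b5 + y) :
    2 < sin b0 ^ 2 + sin b1 ^ 2 + sin b2 ^ 2 + sin b3 ^ 2 + sin b4 ^ 2 + sin b5 ^ 2
      + (sin b0 + sin b1 + sin b2 + sin b3 + sin b4 + sin b5 - 2) ^ 2 ∧
    2 < sin b0 + sin b1 + sin b2 + sin b3 + sin b4 + sin b5 := by
  have hpi := pi_pos
  have k0 : 0 < cos b0 := cos_pos_of_mem_Ioo ⟨by linarith, hb0⟩
  have k3 : 0 < cos b3 := cos_pos_of_mem_Ioo ⟨by linarith, hb3⟩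
  have n0 : 0 ≤ sin b0 := sin_nonneg_of_nonneg_of_le_pi h0 (by linarith)
  have n1 : 0 ≤ sin b1 := sin_nonneg_of_nonneg_of_le_pi h1 (by linarith)
  have n2 : 0 ≤ sin b2 := sin_nonneg_of_nonneg_of_le_pi h2 (by linarith)
  have n3 : 0 ≤ sin b3 := sin_nonneg_of_nonneg_of_le_pi h3 (by linarith)
  have n4 : 0 ≤ sin b4 := sin_nonneg_of_nonneg_of_le_pi h4 (by linarith)
  have n5 : 0 ≤ sin b5 := sin_nonneg_of_nonneg_of_le_pi h5 (by linarith)
  have hz : cos b0 * sin b3 + sin b0 * cos b3 ≤ sin b1 + sin b2 + sin b4 + sin b5 := by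
    have ez : cos b0 * sin b3 + sin b0 * cos b3 = sin ((π / 2 - b0) + (π / 2 - b3)) := by
      rw [sin_add, sin_pi_div_two_sub, sin_pi_div_two_sub, cos_pi_div_two_sub, cos_pi_div_two_sub]
    rw [ez]
    have f2 : sin (π / 2 - b3 + x) ≤ sin b4 + sin b5 :=
      two_sin_ge h4 h5 hb4.le hb5.le (by linarith) (by linarith)
    rcases le_total x (π / 2 - b0) with hh | hh
    · have f1 : sin (π / 2 - b0 - x) ≤ sin b1 + sin b2 :=
        two_sin_ge h1 h2 hb1.le hb2.le (by linarith) (by linarith)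
      have f3 := sin_add_le (x := π / 2 - b0 - x) (y := π / 2 - b3 + x) (by linarith)
        (by linarith) (by linarith) (by linarith)
      have f4 : π / 2 - b0 - x + (π / 2 - b3 + x) = (π / 2 - b0) + (π / 2 - b3) := by ring
      rw [f4] at f3
      linarith
    · have f3 : sin ((π / 2 - b0) + (π / 2 - b3)) ≤ sin (π / 2 - b3 + x) :=
        sin_mono' (by linarith) (by linarith) (by linarith)
      linarith
  have q0 : sin b0 ^ 2 = 1 - cos b0 ^ 2 := by have := sin_sq_add_cos_sq b0; linarith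
  have q3 : sin b3 ^ 2 = 1 - cos b3 ^ 2 := by have := sin_sq_add_cos_sq b3; linarith
  set s0 := sin b0
  set s1 := sin b1
  set s2 := sin b2
  set s3 := sin b3
  set s4 := sin b4
  set s5 := sin b5
  set c0 := cos b0
  set c3 := cos b3
  obtain ⟨hs0, d0⟩ := long_bounds n0 k0.le hc0.le q0
  obtain ⟨hs3, d3⟩ := long_bounds n3 k3.le hc3.le q3
  set Z := s1 + s2 + s4 + s5 with hZ
  have hZ1 : 989 / 1000 * (c0 + c3) ≤ Z :=
    le_trans (long_bounds2 hs0 hs3 k0.le k3.le) hz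
  have hD0 : c0 ^ 2 ≤ 1 / 7 * c0 := by
    have := mul_le_mul_of_nonneg_right hc0.le k0.le
    rw [sq]; exact this
  have hD3 : c3 ^ 2 ≤ 1 / 7 * c3 := by
    have := mul_le_mul_of_nonneg_right hc3.le k3.le
    rw [sq]; exact this
  have hT : 91 / 100 * (c0 + c3) ≤ s0 + s3 + Z - 2 := by linarith
  have hsum : s0 + s1 + s2 + s3 + s4 + s5 - 2 = s0 + s3 + Z - 2 := by rw [hZ]; ring
  have hS1 : 0 < c0 + c3 := by linarith
  have hsq : Z ^ 2 / 4 ≤ s1 ^ 2 + s2 ^ 2 + s4 ^ 2 + s5 ^ 2 := by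
    rw [hZ]
    exact four_sq _ _ _ _
  have hZ2 : (989 / 1000 * (c0 + c3)) ^ 2 ≤ Z ^ 2 := by gcongr
  have hT2 : (91 / 100 * (c0 + c3)) ^ 2 ≤ (s0 + s3 + Z - 2) ^ 2 := by gcongr
  have hDD : c0 ^ 2 + c3 ^ 2 < (c0 + c3) ^ 2 := by nlinarith [mul_pos k0 k3]
  have hZ3 : 978121 / 1000000 * (c0 + c3) ^ 2 ≤ Z ^ 2 := by
    have : (989 / 1000 * (c0 + c3)) ^ 2 = 978121 / 1000000 * (c0 + c3) ^ 2 := by ring
    linarith
  have hT3 : 8281 / 10000 * (c0 + c3) ^ 2 ≤ (s0 + s3 + Z - 2) ^ 2 := by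
    have : (91 / 100 * (c0 + c3)) ^ 2 = 8281 / 10000 * (c0 + c3) ^ 2 := by ring
    linarith
  have hW : 0 ≤ (c0 + c3) ^ 2 := sq_nonneg _
  rw [hsum]
  constructor
  · linarith
  · linarith

end Pool.Agent.Lib.MP_17bf10_co
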