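import Pool.Agent.Lib.MP_17bf10_co.Geometry

set_option autoImplicit false

open Finset

namespace Pool.Agent.Lib.MP_17bf10_co

variable {E : Type*} [NormedAddCommGroup E] [InnerProductSpace ℝ E]

theorem two_mem {a b u c : E} {δ : ℝ} (hδ0 : 0 ≤ δ) (hδ1 : δ ≤ 1) (hu : ‖u‖ = 1)
    (hab : b - a = δ • u) (ha : ‖a - c‖ ≤ δ) (hb : ‖b - c‖ ≤ δ) : ‖a + u - c‖ ≤ 1 := by
  have e1 : a + u - c = (a - c) + u := by abel
  have e2 : b - c = (a - c) + δ • u := by rw [← hab]; abel
  have hB : ‖b - c‖ ^ 2 ≤ δ ^ 2 := pow_le_pow_left₀ (norm_nonneg _) hb 2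
  rw [e2, norm_add_sq_real, norm_smul, inner_smul_right, hu, mul_one, Real.norm_eq_abs,
    sq_abs] at hB
  have key : ‖a - c‖ ^ 2 + 2 * inner ℝ (a - c) u ≤ 0 := by
    rcases eq_or_lt_of_le hδ0 with h0 | h0
    · rw [← h0] at ha
      have : a - c = 0 := norm_le_zero_iff.1 ha
      rw [this]; simp
    · have h1 : δ * (‖a - c‖ ^ 2 + 2 * inner ℝ (a - c) u) ≤ 0 := by
        have h2 : δ * ‖a - c‖ ^ 2 ≤ 1 * ‖a - c‖ ^ 2 :=
          mul_le_mul_of_nonneg_right hδ1 (sq_nonneg _)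
        linarith
      exact nonpos_of_mul_nonpos_right h1 h0
  have h3 : ‖a + u - c‖ ^ 2 ≤ 1 := by
    rw [e1, norm_add_sq_real, hu]; linarith
  by_contra hcon
  push Not at hcon
  have : 1 ^ 2 < ‖a + u - c‖ ^ 2 := by gcongr
  linarith

theorem mem_frontier_PP {S : Finset E} {x c : E} (hx : x ∈ PP S) (hc : c ∈ S)
    (h : ‖x - c‖ = 1) : x ∈ frontier (PP S) := by
  have hcl : IsClosed (PP S) := by
    unfold PP
    exact isClosed_biInter fun _ _ => Metric.isClosed_closedBall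
  rw [hcl.frontier_eq]
  refine ⟨hx, fun hint => ?_⟩
  have hsub : PP S ⊆ Metric.closedBall c 1 := by
    intro y hy
    rw [Metric.mem_closedBall, dist_eq_norm]
    exact mem_PP.1 hy c hc
  have h1 := interior_mono hsub hint
  rw [interior_closedBall c one_ne_zero, Metric.mem_ball, dist_eq_norm, h] at h1
  exact lt_irrefl _ h1

theorem two_sup {S : Finset E} {a u : E} (hu : ‖u‖ = 1) (ha : a ∈ S) {x : E} (hx : x ∈ PP S) :
    0 ≤ inner ℝ (-u + -u) (x - (a + u)) := by
  have h1 := mem_PP.1 hx a ha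
  have h2 : inner ℝ u (x - a) ≤ 1 := by
    have := real_inner_le_norm u (x - a)
    rw [hu] at this
    linarith
  have e : x - (a + u) = (x - a) - u := by abel
  rw [e, inner_add_left, inner_neg_left, inner_sub_right, real_inner_self_eq_norm_sq, hu]
  linarith

theorem exists_two [Nontrivial E] {S : Finset E} (hS : S.Nonempty)
    (hS1 : ∀ c ∈ S, ∀ c' ∈ S, ‖c - c'‖ ≤ 1) :
    ∃ δ : ℝ, 0 ≤ δ ∧ δ ≤ 1 ∧ (∀ c ∈ S, ∀ c' ∈ S, ‖c - c'‖ ≤ δ) ∧
      ∃ q : Fin 2 → E, (∀ j : Fin 2,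
          q j ∈ frontier (⋂ c ∈ S, Metric.closedBall c (1 : ℝ)) ∧
          q j ≠ q (finRotate 2 j) ∧
          ((dist (q (finRotate 2 j)) (q j))⁻¹ • (q (finRotate 2 j) - q j)
            + (dist (q ((finRotate 2).symm j)) (q j))⁻¹ • (q ((finRotate 2).symm j) - q j)) ≠ 0 ∧
          ∀ x ∈ (⋂ c ∈ S, Metric.closedBall c (1 : ℝ)),
            0 ≤ inner ℝ ((dist (q (finRotate 2 j)) (q j))⁻¹ • (q (finRotate 2 j) - q j)
                  + (dist (q ((finRotate 2).symm j)) (q j))⁻¹ • (q ((finRotate 2).symm j) - q j))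
                 (x - q j)) ∧
        ∑ j, dist (q j) (q (finRotate 2 j)) = 4 - 2 * δ := by
  obtain ⟨⟨c, c'⟩, hcc, hmax⟩ := exists_max_image (S ×ˢ S) (fun p => ‖p.1 - p.2‖)
    (hS.product hS)
  rw [mem_product] at hcc
  obtain ⟨hc, hc'⟩ := hcc
  simp only at hc hc'
  set δ := ‖c - c'‖ with hδdef
  have hδ0 : 0 ≤ δ := norm_nonneg _
  have hδ1 : δ ≤ 1 := hS1 c hc c' hc'
  have hδ : ∀ a ∈ S, ∀ b ∈ S, ‖a - b‖ ≤ δ := fun a ha b hb =>
    hmax (a, b) (mem_product.2 ⟨ha, hb⟩)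
  obtain ⟨u, hu, hcu⟩ : ∃ u : E, ‖u‖ = 1 ∧ c - c' = δ • u := by
    rcases eq_or_lt_of_le hδ0 with h0 | h0
    · obtain ⟨u, hu⟩ := exists_norm_eq E (zero_le_one (α := ℝ))
      refine ⟨u, hu, ?_⟩
      rw [← h0, zero_smul]
      exact norm_eq_zero.1 (hδdef.symm.trans h0.symm)
    · refine ⟨δ⁻¹ • (c - c'), ?_, ?_⟩
      · rw [norm_smul, ← hδdef, norm_inv, Real.norm_eq_abs, abs_of_pos h0,
          inv_mul_cancel₀ h0.ne']
      · rw [smul_smul, mul_inv_cancel₀ h0.ne', one_smul]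
  refine ⟨δ, hδ0, hδ1, hδ, ![c' + u, c - u], ?_, ?_⟩
  · have r0 : finRotate 2 0 = 1 := by decide
    have r1 : finRotate 2 1 = 0 := by decide
    have s0 : (finRotate 2).symm 0 = 1 := by rw [Equiv.symm_apply_eq]; decide
    have s1 : (finRotate 2).symm 1 = 0 := by rw [Equiv.symm_apply_eq]; decide
    have d12 : (c' + u) - (c - u) = (2 - δ) • u := by
      rw [sub_smul, two_smul, ← hcu]; abel
    have d21 : (c - u) - (c' + u) = -((2 - δ) • u) := by
      rw [← d12]; abel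
    have hn : ‖(2 - δ) • u‖ = 2 - δ := by
      rw [norm_smul, hu, Real.norm_eq_abs, abs_of_pos (by linarith), mul_one]
    have hpos : 0 < 2 - δ := by linarith
    have hu0 : u ≠ 0 := by
      intro h; rw [h, norm_zero] at hu; exact zero_ne_one hu
    have hne : (c' + u) ≠ (c - u) := by
      intro h
      have h2 := d12
      rw [h, sub_self] at h2
      have := hn
      rw [← h2, norm_zero] at this
      linarith
    have m1 : c' + u ∈ PP S := mem_PP.2 fun b hb =>
      two_mem hδ0 hδ1 hu hcu (hδ c' hc' b hb) (hδ c hc b hb)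
    have hcu' : c' - c = δ • (-u) := by rw [smul_neg, ← hcu]; abel
    have m2 : c - u ∈ PP S := mem_PP.2 fun b hb => by
      have := two_mem (u := -u) hδ0 hδ1 (by rw [norm_neg, hu]) hcu' (hδ c hc b hb) (hδ c' hc' b hb)
      rwa [← sub_eq_add_neg] at this
    have w1 : (dist (c - u) (c' + u))⁻¹ • ((c - u) - (c' + u)) = -u := by
      rw [dist_eq_norm, d21, norm_neg, hn, smul_neg, smul_smul, inv_mul_cancel₀ hpos.ne', one_smul]
    have w2 : (dist (c' + u) (c - u))⁻¹ • ((c' + u) - (c - u)) = u := by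
      rw [dist_eq_norm, d12, hn, smul_smul, inv_mul_cancel₀ hpos.ne', one_smul]
    rw [Fin.forall_fin_two]
    constructor
    · simp only [r0, s0, Matrix.cons_val_zero, Matrix.cons_val_one]
      rw [w1]
      refine ⟨mem_frontier_PP m1 hc' (by simpa using hu), hne, ?_, fun x hx => two_sup hu hc' hx⟩
      intro h
      have : (-2 : ℝ) • u = 0 := by rw [neg_smul, two_smul]; rw [← h]; abel
      exact hu0 ((smul_eq_zero.1 this).resolve_left (by norm_num))
    · simp only [r1, s1, Matrix.cons_val_zero, Matrix.cons_val_one]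
      rw [w2]
      refine ⟨mem_frontier_PP m2 hc (by simpa using hu), hne.symm, ?_, fun x hx => ?_⟩
      · intro h
        have : (2 : ℝ) • u = 0 := by rw [two_smul]; exact h
        exact hu0 ((smul_eq_zero.1 this).resolve_left (by norm_num))
      · have := two_sup (u := -u) (by rw [norm_neg, hu]) hc hx
        rwa [neg_neg, ← sub_eq_add_neg] at this
  · have r0 : finRotate 2 0 = 1 := by decide
    have r1 : finRotate 2 1 = 0 := by decide
    have d12 : (c' + u) - (c - u) = (2 - δ) • u := by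
      rw [sub_smul, two_smul, ← hcu]; abel
    have hn : ‖(2 - δ) • u‖ = 2 - δ := by
      rw [norm_smul, hu, Real.norm_eq_abs, abs_of_pos (by linarith), mul_one]
    rw [Fin.sum_univ_two, r0, r1]
    simp only [Matrix.cons_val_zero, Matrix.cons_val_one]
    rw [dist_comm (c - u), dist_eq_norm, d12, hn]
    ring

end Pool.Agent.Lib.MP_17bf10_co
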